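import Pool.Agent.Helper17.SA.Defs

/-!
# Certificates: permutations in general position to the tree group `Q0 m`
-/

set_option autoImplicit false

open scoped Pointwise

namespace Pool.Agent.Helper17.SA

open Equiv

/-- `L` lists the images of `t - 1, …, 1, 0` (`t = L.length`); the value `v` for `t` is compatible
with the two tree structures. -/
def okk (x : List ℕ) (L : List ℕ) (v : ℕ) : Bool :=
  let t := L.length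
  (List.range t).all fun s =>
    let w := L.getD (t - 1 - s) 0
    (dd w v == dd s t) && (dd (x.getD w 0) (x.getD v 0) == dd (x.getD s 0) (x.getD t 0))

/-- Search: all compatible extensions of `L` by `f` more values are the identity. -/
def rig (m : ℕ) (x : List ℕ) : ℕ → List ℕ → Bool
  | 0, L => L == (List.range m).reverse
  | f + 1, L => (List.range m).all fun v => !(okk x L v) || rig m x f (v :: L)

/-- Invariant of the double coset. -/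
def key (m : ℕ) (x : List ℕ) : ℕ :=
  ((List.range m).map fun i => ((List.range m).map fun j =>
    1000 ^ (5 * dd i j + dd (x.getD i 0) (x.getD j 0))).sum).sum

/-- Values of a permutation as a list. -/
def lst (m : ℕ) (x : Perm (Fin m)) : List ℕ := List.ofFn fun i => (x i : ℕ)

/-- How many double cosets are needed. -/
def need (m : ℕ) : ℕ := if m = 9 then 7 else if m = 10 then 7 else if m = 12 then 41 else 1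

/-- Permutations of `5` points. -/
def dat5 : List (List ℕ) :=
    [[4, 0, 3, 1, 2]]

/-- Permutations of `6` points. -/
def dat6 : List (List ℕ) :=
    [[1, 2, 3, 5, 4, 0]]

/-- Permutations of `9` points. -/
def dat9 : List (List ℕ) :=
    [[8, 5, 2, 6, 7, 4, 0, 3, 1], [5, 8, 7, 0, 6, 3, 1, 4, 2], [6, 5, 7, 0, 4, 3, 1, 8, 2], [8,
    5, 6, 2, 7, 0, 4, 1, 3], [3, 6, 5, 7, 8, 4, 1, 2, 0], [3, 8, 2, 0, 1, 7, 6, 4, 5], [0, 8, 6,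
    1, 7, 2, 3, 4, 5]]

/-- Permutations of `10` points. -/
def dat10 : List (List ℕ) :=
    [[3, 7, 0, 9, 5, 6, 1, 2, 8, 4], [3, 5, 2, 1, 7, 4, 9, 0, 6, 8], [4, 3, 0, 9, 7, 8, 2, 1, 5,
    6], [4, 7, 6, 3, 9, 1, 5, 0, 8, 2], [1, 2, 3, 6, 7, 8, 5, 0, 9, 4], [6, 4, 7, 3, 0, 8, 2, 9,
    5, 1], [4, 2, 1, 3, 6, 8, 9, 0, 5, 7]]

/-- Permutations of `12` points. -/
def dat12 : List (List ℕ) :=
    [[6, 5, 7, 9, 4, 0, 10, 1, 11, 2, 8, 3], [2, 7, 6, 5, 4, 10, 0, 8, 11, 3, 1, 9], [6, 3, 0,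
    10, 7, 5, 1, 8, 2, 9, 11, 4], [11, 9, 10, 1, 0, 6, 4, 3, 2, 7, 8, 5], [2, 7, 1, 10, 9, 11, 6,
    4, 3, 0, 8, 5], [0, 5, 7, 9, 10, 2, 1, 3, 4, 11, 6, 8], [1, 5, 3, 9, 10, 7, 8, 6, 4, 11, 0,
    2], [0, 4, 5, 6, 7, 8, 11, 9, 10, 2, 3, 1], [5, 1, 3, 11, 7, 8, 0, 9, 6, 4, 2, 10], [1, 4, 5,
    6, 2, 11, 0, 9, 10, 3, 8, 7], [2, 7, 0, 11, 4, 9, 8, 10, 3, 1, 5, 6], [6, 0, 4, 10, 8, 1, 3,
    11, 2, 9, 7, 5], [7, 4, 6, 9, 8, 2, 11, 3, 5, 1, 0, 10], [2, 5, 7, 10, 1, 11, 8, 6, 0, 3, 9,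
    4], [2, 6, 7, 9, 10, 5, 4, 8, 3, 0, 1, 11], [0, 5, 7, 10, 11, 2, 4, 6, 3, 8, 9, 1], [4, 6, 7,
    9, 11, 0, 3, 8, 5, 1, 2, 10], [5, 1, 6, 4, 0, 10, 2, 11, 7, 8, 9, 3], [0, 7, 1, 3, 4, 9, 8,
    10, 6, 5, 11, 2], [2, 6, 1, 3, 0, 9, 5, 8, 4, 11, 7, 10], [5, 1, 4, 9, 2, 11, 7, 10, 3, 0, 6,
    8], [2, 5, 7, 11, 10, 6, 9, 4, 3, 0, 1, 8], [6, 0, 4, 10, 5, 7, 9, 2, 3, 8, 1, 11], [7, 1, 2,
    0, 3, 9, 11, 4, 6, 5, 8, 10], [1, 7, 5, 8, 3, 0, 9, 6, 4, 11, 2, 10], [1, 7, 4, 8, 5, 6, 2,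
    10, 11, 9, 0, 3], [1, 3, 2, 6, 0, 8, 11, 7, 10, 5, 9, 4], [4, 3, 0, 9, 11, 8, 1, 2, 5, 7, 10,
    6], [1, 5, 4, 9, 2, 0, 11, 7, 10, 6, 8, 3], [0, 6, 1, 9, 5, 7, 8, 3, 4, 10, 2, 11], [8, 11,
    10, 0, 3, 6, 5, 9, 2, 7, 1, 4], [6, 0, 4, 9, 7, 5, 1, 2, 8, 10, 11, 3], [11, 8, 10, 5, 4, 2,
    3, 6, 9, 1, 7, 0], [10, 8, 3, 9, 11, 6, 5, 2, 4, 1, 0, 7], [6, 3, 0, 11, 4, 8, 5, 7, 9, 10,
    1, 2], [10, 9, 11, 6, 8, 1, 0, 5, 3, 7, 2, 4], [7, 3, 9, 5, 8, 1, 0, 2, 4, 11, 6, 10], [2, 4,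
    5, 6, 1, 3, 7, 8, 11, 9, 0, 10], [4, 2, 0, 3, 11, 7, 6, 5, 8, 1, 10, 9], [2, 4, 7, 9, 10, 6,
    5, 11, 8, 0, 3, 1], [8, 11, 10, 1, 0, 5, 7, 2, 9, 3, 4, 6]]

/-- First permutation for `m = 8`. -/
def o8a : List ℕ := [2, 4, 7, 6, 5, 1, 0, 3]

/-- Second permutation for `m = 8`. -/
def o8b : List ℕ := [1, 6, 0, 2, 4, 7, 3, 5]

end Pool.Agent.Helper17.SA
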