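import Pool.Agent.Helper17.SA.St2

/-!
# More certificates, and definitions for lifting through products of simple groups
-/

set_option autoImplicit false

open scoped Pointwise

namespace Pool.Agent.Helper17.SA

open Equiv

/-- How many double cosets are needed in part 3. -/
def need2 (m : ℕ) : ℕ := if m = 7 then 9 else if m = 9 then 9 else if m = 10 then 18 else 50

/-- Permutations of `7` points. -/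
def dbt7 : List (List ℕ) :=
    [[1, 2, 3, 5, 0, 4, 6], [0, 5, 4, 6, 1, 2, 3], [1, 5, 2, 0, 4, 6, 3], [3, 1, 2, 6, 0, 5, 4],
    [2, 6, 4, 3, 5, 1, 0], [4, 2, 5, 0, 1, 6, 3], [2, 6, 0, 4, 3, 1, 5], [2, 5, 0, 6, 3, 4, 1],
    [6, 5, 1, 2, 0, 4, 3]]

/-- Permutations of `9` points. -/
def dbt9 : List (List ℕ) :=
    [[7, 3, 0, 2, 8, 1, 6, 5, 4], [8, 1, 2, 6, 0, 4, 3, 5, 7], [8, 4, 1, 7, 0, 3, 5, 6, 2], [1,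
    2, 3, 5, 7, 0, 4, 8, 6], [7, 5, 6, 0, 4, 3, 8, 2, 1], [8, 6, 5, 2, 0, 4, 7, 3, 1], [2, 5, 4,
    7, 3, 1, 8, 0, 6], [8, 0, 1, 7, 6, 3, 5, 2, 4], [8, 1, 5, 7, 6, 0, 2, 4, 3]]

/-- Permutations of `10` points. -/
def dbt10 : List (List ℕ) :=
    [[0, 7, 6, 4, 9, 5, 3, 1, 2, 8], [7, 5, 6, 3, 8, 2, 4, 0, 9, 1], [4, 1, 7, 5, 2, 8, 6, 9, 3,
    0], [7, 2, 4, 9, 5, 6, 3, 0, 8, 1], [4, 6, 7, 2, 5, 0, 1, 9, 3, 8], [2, 5, 1, 9, 8, 6, 0, 3,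
    4, 7], [4, 6, 5, 2, 0, 8, 9, 3, 7, 1], [7, 3, 1, 8, 6, 4, 9, 5, 2, 0], [5, 2, 4, 7, 3, 1, 9,
    0, 6, 8], [0, 8, 1, 6, 7, 4, 3, 9, 2, 5], [4, 1, 6, 8, 0, 2, 9, 7, 3, 5], [6, 9, 5, 3, 7, 0,
    8, 1, 4, 2], [9, 0, 5, 2, 7, 3, 4, 1, 6, 8], [1, 8, 0, 6, 7, 2, 3, 5, 4, 9], [4, 9, 7, 1, 5,
    2, 3, 6, 8, 0], [0, 3, 6, 8, 4, 1, 7, 2, 9, 5], [2, 9, 8, 4, 3, 7, 6, 1, 5, 0], [4, 8, 0, 7,
    6, 2, 1, 9, 5, 3]]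

/-- Permutations of `12` points. -/
def dbt12 : List (List ℕ) :=
    [[5, 0, 7, 8, 10, 1, 3, 9, 4, 6, 11, 2], [6, 1, 4, 11, 8, 7, 3, 10, 9, 5, 0, 2], [6, 2, 0,
    10, 4, 11, 3, 1, 7, 8, 9, 5], [1, 7, 2, 0, 5, 11, 8, 3, 9, 10, 6, 4], [5, 0, 7, 11, 10, 6, 3,
    1, 2, 8, 9, 4], [2, 0, 3, 5, 4, 8, 9, 6, 7, 10, 11, 1], [4, 3, 1, 11, 9, 7, 5, 6, 0, 2, 8,
    10], [0, 7, 3, 1, 2, 10, 5, 6, 4, 9, 8, 11], [7, 0, 2, 11, 9, 10, 4, 6, 8, 5, 1, 3], [5, 7,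
    6, 11, 10, 2, 9, 1, 8, 3, 4, 0], [1, 6, 4, 8, 5, 7, 2, 0, 3, 10, 9, 11], [0, 7, 3, 8, 4, 11,
    6, 10, 9, 5, 1, 2], [2, 6, 0, 11, 5, 9, 10, 8, 1, 3, 4, 7], [5, 2, 7, 8, 3, 0, 6, 11, 10, 4,
    1, 9], [8, 10, 11, 7, 6, 1, 5, 3, 0, 4, 9, 2], [1, 5, 0, 11, 4, 7, 9, 6, 10, 3, 8, 2], [10,
    8, 9, 0, 3, 5, 4, 11, 2, 7, 6, 1], [5, 1, 2, 9, 3, 10, 0, 11, 4, 6, 8, 7], [0, 2, 3, 10, 1,
    4, 6, 9, 5, 8, 11, 7], [3, 4, 0, 11, 8, 6, 1, 2, 9, 10, 5, 7], [3, 7, 0, 8, 1, 2, 9, 10, 6,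
    4, 11, 5], [0, 4, 7, 5, 1, 8, 11, 6, 10, 3, 2, 9], [11, 8, 9, 7, 5, 1, 0, 6, 4, 3, 2, 10],
    [11, 9, 10, 2, 1, 4, 6, 8, 3, 7, 5, 0], [1, 4, 5, 8, 6, 9, 10, 3, 11, 7, 0, 2], [5, 1, 7, 4,
    3, 8, 11, 9, 0, 2, 10, 6], [2, 7, 3, 1, 5, 10, 6, 9, 0, 11, 8, 4], [7, 1, 4, 9, 5, 6, 3, 11,
    10, 2, 0, 8], [2, 0, 3, 5, 7, 8, 1, 10, 4, 9, 11, 6], [1, 4, 0, 8, 9, 3, 7, 5, 6, 11, 10, 2],
    [4, 1, 6, 11, 0, 3, 10, 2, 5, 9, 8, 7], [4, 0, 1, 10, 11, 2, 9, 3, 8, 7, 5, 6], [3, 5, 4, 8,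
    2, 1, 6, 11, 0, 10, 7, 9], [5, 2, 0, 8, 9, 1, 3, 10, 6, 4, 7, 11], [4, 7, 6, 3, 0, 10, 5, 11,
    9, 1, 2, 8], [2, 5, 9, 3, 0, 10, 6, 11, 8, 1, 4, 7], [2, 1, 8, 0, 10, 7, 6, 9, 11, 4, 5, 3],
    [2, 11, 7, 3, 5, 1, 6, 0, 4, 8, 10, 9], [2, 6, 7, 5, 1, 8, 11, 9, 10, 0, 4, 3], [2, 5, 6, 11,
    3, 9, 8, 4, 7, 0, 10, 1], [5, 2, 3, 9, 6, 8, 1, 10, 7, 11, 0, 4], [7, 3, 5, 9, 10, 6, 2, 8,
    4, 0, 1, 11], [1, 9, 6, 3, 0, 5, 2, 4, 7, 10, 8, 11], [0, 11, 7, 2, 6, 5, 4, 1, 10, 8, 3, 9],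
    [8, 2, 3, 7, 11, 1, 5, 6, 9, 10, 4, 0], [5, 7, 4, 1, 0, 8, 11, 2, 3, 6, 10, 9], [6, 2, 0, 3,
    7, 8, 9, 11, 1, 4, 10, 5], [1, 6, 5, 7, 8, 3, 2, 4, 9, 11, 0, 10], [3, 7, 2, 9, 0, 11, 4, 10,
    1, 6, 5, 8], [10, 5, 7, 1, 4, 9, 3, 0, 2, 6, 8, 11]]

/-- `3 - 1` colours for the prime `2`, `2 - 1` for odd primes. -/
def kap (p : ℕ) : ℕ := if p = 2 then 2 else 1

/-- A finite group `S` is ample: for all subgroups `T i` of `Aut S` of orders powers of distinct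
primes `p i` and all shifts `c i ∈ S`, the set of `n ∈ S` with `T i ∩ (T i) ^ (c i n) = 1` for all
`i` has more than `kap (p j) * |T j| * |T j ∩ Inn S|` elements, for every `j`. -/
def Ample (S : Type) [Group S] : Prop :=
  ∀ (ι : Type) [Finite ι] (p : ι → ℕ), (∀ i, (p i).Prime) → Function.Injective p →
    ∀ (T : ι → Subgroup (MulAut S)) (c : ι → S), (∀ i, IsPGroup (p i) (T i)) → ∀ j,
      kap (p j) * Nat.card (T j) * Nat.card {t : MulAut S // t ∈ T j ∧ ∃ a : S, t = MulAut.conj a} <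
        Nat.card {n : S // ∀ i, ∀ t ∈ T i,
          MulAut.conj (c i * n) * t * (MulAut.conj (c i * n))⁻¹ ∈ T i → t = 1}

/-- The restrictions of the elements of `R` that preserve the factor `ω`. -/
def Res {Ω : Type} [DecidableEq Ω] {S : Ω → Type} [∀ ω, Group (S ω)]
    (R : Subgroup (MulAut (∀ ω, S ω))) (ω : Ω) : Subgroup (MulAut (S ω)) where
  carrier := {t | ∃ y ∈ R, ∀ a : S ω, y (Pi.mulSingle ω a) = Pi.mulSingle ω (t a)}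
  mul_mem' := by
    rintro t t' ⟨y, hy, h⟩ ⟨y', hy', h'⟩
    refine ⟨y * y', R.mul_mem hy hy', fun a => ?_⟩
    rw [MulAut.mul_apply, h', h, MulAut.mul_apply]
  one_mem' := ⟨1, R.one_mem, fun a => rfl⟩
  inv_mem' := by
    rintro t ⟨y, hy, h⟩
    refine ⟨y⁻¹, R.inv_mem hy, fun a => ?_⟩
    have := h (t⁻¹ a)
    rw [MulAut.apply_inv_self] at this
    rw [← this, MulAut.inv_apply_self]

/-- Two elements `x`, `x'` of the factors `ω`, `ω'` have the same colour: there are `y, r ∈ R` that map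
the factor `ω` to the factor `ω'`, with `r = conj x' ∘ y ∘ (conj x)⁻¹` on the factor `ω`. -/
def Rel {Ω : Type} [DecidableEq Ω] {S : Ω → Type} [∀ ω, Group (S ω)]
    (R : Subgroup (MulAut (∀ ω, S ω))) (ω ω' : Ω) (x : S ω) (x' : S ω') : Prop :=
  ∃ y ∈ R, ∃ r ∈ R, ∀ a : S ω, ∃ b : S ω', y (Pi.mulSingle ω a) = Pi.mulSingle ω' b ∧
    r (Pi.mulSingle ω (x * a * x⁻¹)) = Pi.mulSingle ω' (x' * b * x'⁻¹)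

end Pool.Agent.Helper17.SA
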