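import Mathlib

/-!
# Synchronized Sylow intersections in symmetric and alternating groups: definitions
-/

set_option autoImplicit false

open scoped Pointwise

namespace Pool.Agent.Helper17.SA

open Equiv

/-- `x` is bad for `H`: the subgroup `H` meets its conjugate `x⁻¹ H x` nontrivially. -/
def Bad {G : Type} [Group G] (H : Subgroup G) (x : G) : Prop :=
  ∃ y ∈ H, y ≠ 1 ∧ x * y * x⁻¹ ∈ H

/-- Number of bad elements. -/
noncomputable def bad {G : Type} [Group G] (H : Subgroup G) : ℕ := Nat.card {x : G // Bad H x}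

/-- Number of elements of `H` that are products of `k` disjoint `p`-cycles. -/
noncomputable def cc {α : Type} [Fintype α] [DecidableEq α] (H : Subgroup (Perm α)) (p k : ℕ) :
    ℕ :=
  Nat.card {y : Perm α // y ∈ H ∧ y.cycleType = Multiset.replicate k p}

/-- Trinomial coefficients: `T n k` is the coefficient of `s ^ k` in `(1 + s + s ^ 2) ^ n`. -/
def T : ℕ → ℕ → ℕ
  | 0, 0 => 1
  | 0, _ + 1 => 0
  | n + 1, 0 => T n 0
  | n + 1, 1 => T n 1 + T n 0
  | n + 1, k + 2 => T n (k + 2) + T n (k + 1) + T n k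

/-- The general bound for `cc H p k`, `n = m / p`. -/
def RT (p n k : ℕ) : ℕ := (p - 1) ^ k * T n k

/-- Exact numbers for Sylow `2`-subgroups, `n = m / 2 ≤ 10`. -/
def A2 (n k : ℕ) : ℕ :=
  (([[1], [1, 1], [1, 2, 3], [1, 3, 5, 3], [1, 4, 10, 12, 17], [1, 5, 14, 22, 29, 17],
    [1, 6, 21, 44, 71, 70, 51], [1, 7, 27, 65, 115, 141, 121, 51],
    [1, 8, 36, 104, 230, 376, 484, 408, 417], [1, 9, 44, 140, 334, 606, 860, 892, 825, 417],
    [1, 10, 55, 200, 546, 1148, 1926, 2504, 2685, 2058, 1251]] : List (List ℕ)).getD n []).getD k 0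

/-- Exact numbers for Sylow `3`-subgroups, `n = m / 3 ≤ 7`. -/
def A3 (n k : ℕ) : ℕ :=
  (([[1], [1, 2], [1, 4, 4], [1, 6, 12, 26], [1, 8, 24, 50, 52], [1, 10, 40, 98, 152, 104],
    [1, 12, 60, 196, 456, 624, 676], [1, 14, 84, 316, 848, 1536, 1924, 1352]] :
      List (List ℕ)).getD n []).getD k 0

/-- The conditions for a bound `R n k` of `cc H p k` (`n = m / p ≤ N`) that make the induction
over orbits and blocks work. -/
def Good (p N : ℕ) (R : ℕ → ℕ → ℕ) : Prop :=
  (∀ n ≤ N, 1 ≤ R n 0) ∧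
  (∀ n1 n2 n k : ℕ, n1 + n2 ≤ n → n ≤ N →
    ∑ i ∈ Finset.range (k + 1), (if i ≤ n1 ∧ k - i ≤ n2 then R n1 i * R n2 (k - i) else 0) ≤
      R n k) ∧
  (1 ≤ N → p - 1 ≤ R 1 1) ∧
  (∀ i : ℕ, 1 ≤ i → p ^ i ≤ N →
    R (p ^ (i - 1)) (p ^ (i - 1)) * R (p ^ i - p ^ (i - 1)) (p ^ i - p ^ (i - 1)) +
      (p - 1) * p ^ (p ^ i - 1) ≤ R (p ^ i) (p ^ i))

/-- The first moment: `(p - 1)` times the number of bad elements of `Perm (Fin m)` is at most this
sum. -/
def W (R : ℕ → ℕ → ℕ) (p m : ℕ) : ℕ :=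
  ∑ k ∈ Finset.Icc 1 (m / p), (R (m / p) k) ^ 2 * (m - p * k).factorial * p ^ k * k.factorial

/-- The part of the first moment with even `k`. -/
def We (R : ℕ → ℕ → ℕ) (p m : ℕ) : ℕ :=
  ∑ k ∈ (Finset.Icc 1 (m / p)).filter (fun k => k % 2 = 0),
    (R (m / p) k) ^ 2 * (m - p * k).factorial * p ^ k * k.factorial

/-- Level of the smallest common block of the points `i` and `j` in the binary tree. -/
def dd (i j : ℕ) : ℕ := Nat.size (i ^^^ j)

/-- The automorphism group of the binary trees on the points `0, …, m - 1`. -/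
def Q0 (m : ℕ) : Subgroup (Perm (Fin m)) where
  carrier := {y | ∀ i j : Fin m, dd (y i) (y j) = dd i j}
  mul_mem' := by
    intro a b ha hb i j
    rw [Perm.mul_apply, Perm.mul_apply, ha, hb]
  one_mem' := by
    intro i j
    rfl
  inv_mem' := by
    intro a ha i j
    have := ha (a⁻¹ i) (a⁻¹ j)
    simp only [Perm.inv_def, Equiv.apply_symm_apply] at this
    exact this.symm

/-- Property `(*)` at the prime `q`: some two Sylow `q`-subgroups intersect inside the
intersection of all Sylow `q`-subgroups. -/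
def StarAt (G : Type) [Group G] (q : ℕ) : Prop :=
  ∃ P Q : Sylow q G, (P : Subgroup G) ⊓ (Q : Subgroup G) ≤ ⨅ R : Sylow q G, (R : Subgroup G)

/-- The synchronized statement for the family `p` of primes: for all Sylow `p i`-subgroups `P i`
there is one `x` with `P i ∩ (P i) ^ x = O_{p i}(G)` for all `i`. -/
def SyncFor (G : Type) [Group G] {ι : Type} (p : ι → ℕ) : Prop :=
  ∀ P : ∀ i, Sylow (p i) G, ∃ x : G, ∀ i,
    (P i : Subgroup G) ⊓ MulAut.conj x⁻¹ • (P i : Subgroup G) =
      ⨅ Q : Sylow (p i) G, (Q : Subgroup G)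

/-- Question 1 for the group `G`: if `G` has `(*)` at all primes of a finite family of distinct
primes, then the synchronized statement holds for the family. -/
def Q1 (G : Type) [Group G] : Prop :=
  ∀ (ι : Type) [Finite ι] (p : ι → ℕ), (∀ i, (p i).Prime) → Function.Injective p →
    (∀ i, StarAt G (p i)) → SyncFor G p

end Pool.Agent.Helper17.SA
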