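import Pool.Agent.Helper17.SA.St2
import Pool.Agent.Helper72.SA.M_UB
import Pool.Agent.Helper74.SA.M_UB2
import Pool.Agent.Helper4.SA.M_TRN
import Pool.Agent.Helper8.SA.M_INT
import Pool.Agent.Helper88.SA.M_TRA
import Pool.Agent.Helper79.SA.M_LEG
import Pool.Agent.Helper8.SA.M_OUT
import Pool.Agent.Helper88.SA.M_CNT
import Pool.Agent.Helper42.SA.M_T1
import Pool.Agent.Helper42.SA.M_T2
import Pool.Agent.Helper2.SA.M_GDT
import Pool.Agent.Helper58.SA.M_GDX
import Pool.Agent.Helper42.SA.M_TB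
import Pool.Agent.Helper45.SA.M_AN2
import Pool.Agent.Helper45.SA.M_AN3
import Pool.Agent.Helper8.SA.M_ANP
import Pool.Agent.Helper58.SA.M_A57
import Pool.Agent.Helper15.SA.M_NUM
import Pool.Agent.Helper2.SA.M_S6
import Pool.Agent.Helper26.SA.M_QA
import Pool.Agent.Helper6.SA.M_QB
import Pool.Agent.Helper40.SA.M_SYL
import Pool.Agent.Helper28.SA.M_CER
import Pool.Agent.Helper89.SA.M_RIG
import Pool.Agent.Helper62.SA.M_KEY
import Pool.Agent.Helper78.SA.M_CM
import Pool.Agent.Helper13.SA.M_O8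
import Pool.Agent.Helper78.SA.M_E8
import Pool.Agent.Helper80.SA.M_TR
import Pool.Agent.Helper82.SA.M_BW
import Pool.Agent.Helper82.SA.M_TOT
import Pool.Agent.Helper40.SA.M_NSM
import Pool.Agent.Helper60.SA.M_SY2
import Pool.Agent.Helper38.SA.M_SYM
import Pool.Agent.Helper12.SA.M_ALT
import Pool.Agent.Helper78.SA.M_SML
import Pool.Agent.Helper3.SA.M_PRD
import Pool.Agent.Helper64.SA.M_ISO
import Pool.Agent.Helper69.SA.M_FIN

/-!
# Synchronized Sylow intersections in symmetric and alternating groups: assembly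
-/

set_option autoImplicit false

namespace Pool.Agent.Helper17.SA

theorem kUB : StUB := Pool.Agent.Helper72.SA.pUB
theorem kUB2 : StUB2 := Pool.Agent.Helper74.SA.pUB2
theorem kTRN : StTRN := Pool.Agent.Helper4.SA.pTRN
theorem kINT : StINT := Pool.Agent.Helper8.SA.pINT
theorem kTRA : StTRA := Pool.Agent.Helper88.SA.pTRA
theorem kLEG : StLEG := Pool.Agent.Helper79.SA.pLEG
theorem kOUT : StOUT := Pool.Agent.Helper8.SA.pOUT kLEG
theorem kCNT : StCNT := Pool.Agent.Helper88.SA.pCNT kINT kTRA kOUT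
theorem kT1 : StT1 := Pool.Agent.Helper42.SA.pT1
theorem kT2 : StT2 := Pool.Agent.Helper42.SA.pT2 kT1
theorem kGDT : StGDT := Pool.Agent.Helper2.SA.pGDT kT1 kT2
theorem kGDX : StGDX := Pool.Agent.Helper58.SA.pGDX
theorem kTB : StTB := Pool.Agent.Helper42.SA.pTB kT2
theorem kAN2 : StAN2 := Pool.Agent.Helper45.SA.hAN2 kTB
theorem kAN3 : StAN3 := Pool.Agent.Helper45.SA.hAN3 kTB
theorem kANP : StANP := Pool.Agent.Helper8.SA.pANP kTB
theorem kA57 : StA57 := Pool.Agent.Helper58.SA.pA57 kANP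
theorem kNUM : StNUM := Pool.Agent.Helper15.SA.pNUM
theorem kS6 : StS6 := Pool.Agent.Helper2.SA.pS6 kUB kCNT kGDX
theorem kQA : StQA := Pool.Agent.Helper26.SA.pQA
theorem kQB : StQB := Pool.Agent.Helper6.SA.pQB
theorem kSYL : StSYL := Pool.Agent.Helper40.SA.pSYL kQA kQB
theorem kCER : StCER := Pool.Agent.Helper28.SA.M_CER.pCER
theorem kRIG : StRIG := Pool.Agent.Helper89.SA.pRIG
theorem kKEY : StKEY := Pool.Agent.Helper62.SA.pKEY
theorem kCM : StCM := Pool.Agent.Helper78.SA.pCM kCER kRIG kKEY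
theorem kO8 : StO8 := Pool.Agent.Helper13.SA.pO8
theorem kE8 : StE8 := Pool.Agent.Helper78.SA.pE8 kSYL kCER kO8
theorem kTR : StTR := Pool.Agent.Helper80.SA.pTR
theorem kBW : StBW := Pool.Agent.Helper82.SA.pBW kUB kCNT
theorem kTOT : StTOT := Pool.Agent.Helper82.SA.TOT.pTOT kBW kGDT kA57
theorem kNSM : StNSM := Pool.Agent.Helper40.SA.pNSM
theorem kSY2 : StSY2 := Pool.Agent.Helper60.SA.pSY2 kBW kUB2 kTRN kCNT kGDT kGDX kSYL kCM kE8 kAN2
  kAN3 kA57 kNUM kNSM kS6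
theorem kSYM : StSYM := Pool.Agent.Helper38.SA.pSYM kTOT kSY2
theorem kALT : StALT := Pool.Agent.Helper12.SA.pALT kTR kTOT kBW kGDT kGDX kE8 kAN2 kAN3 kA57 kNUM
  kNSM
theorem kSML : StSML := Pool.Agent.Helper78.SA.pSML
theorem kPRD : StPRD := Pool.Agent.Helper3.SA.pPRD
theorem kISO : StISO := Pool.Agent.Helper64.SA.pISO
theorem kFIN : StFIN := Pool.Agent.Helper69.SA.pFIN kSYM kALT kSML kPRD kISO

end Pool.Agent.Helper17.SA
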