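import Pool.Agent.Helper17.SA.Cert2

/-!
# Statements of the modules of project SA, part 3: lifting through products of simple groups

Every `St..` is a proposition with a complete proof in its docstring. THEOREM of this part: Q1 holds
for every finite group `G` with a normal series whose factors are nilpotent (with `(*)` for the
quotient at this place) or direct products of alternating groups of degree `7` or at least `9`
(permuted by `G` in any way, no `(*)` needed there).
-/

set_option autoImplicit false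

open scoped Pointwise

namespace Pool.Agent.Helper17.SA

open Equiv

/-- MODULE LD. List distinguishing colourings for `p`-groups. PROOF. Put `κ = kap p + 1` (`3` for
`p = 2`, `2` for odd `p`). Call a colouring `c` distinguishing if every `q` with `c (q • ω) = c ω` for
all `ω` acts trivially. By strong induction on `|ℓ|` show for all finite `p`-groups `Q` acting
transitively on `ℓ` and all lists: (A) if ALL lists have at least `κ` elements then there are `κ`
distinguishing colourings from the lists, pairwise not of the form `c' = c ∘ (q • ·)`; (B) the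
statement. If `|ℓ| = 1` both are clear. Let `|ℓ| > 1`. The stabilizer of a point is a proper
subgroup of the `p`-group `Q`, so it lies in a normal subgroup `M` of index `p`; the `M`-orbits
`ℓ_1, …, ℓ_p` are permuted by `Q`, `M` is the stabilizer of each of them (its index is `p` and it
contains point stabilizers), and elements outside `M` permute the `p` orbits in one cycle. `M` acts
transitively on each `ℓ_j`, which is smaller than `ℓ`. Consider colourings of single blocks `ℓ_j`; call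
`(j, c)` and `(k, c')` equivalent if some `q ∈ Q` maps `ℓ_j` to `ℓ_k` and `c = c' ∘ q` on `ℓ_j`; this is an
equivalence relation, on one block it is `M`-equivalence. (*) If `c_j` are distinguishing colourings of
the blocks (for `M`) and not all `(j, c_j)` are equivalent then their union `c` is distinguishing for
`Q`: let `q` preserve `c`; if `q ∈ M` it acts trivially on each block; if `q ∉ M`, then
`(j, c_j)` is equivalent to `(q j, c_(q j))`, so all are equivalent, a contradiction. (B): let `o ∈ ℓ_1`;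
take a distinguishing list colouring of `ℓ_1` by (B), of `ℓ_j`, `j ≥ 3`, by (A), and of `ℓ_2` one of the
`κ ≥ 2` inequivalent ones from (A) which is not equivalent to that of `ℓ_1`. (A): for each block fix
`κ` inequivalent distinguishing list colourings; there are `κ ^ p` tuples, at most `κ` of them have all
components equivalent (such a tuple is determined by its first component), the others are
distinguishing by (*). If two such colourings of `ℓ` are equivalent by `q ∈ Q` then the tuples of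
equivalence classes differ by the cyclic permutation of the blocks given by `q M`; so a class contains
at most `p` of them. Hence there are at least `(κ ^ p - κ) / p` classes; this is `(9 - 3)/2 = 3` for
`p = 2` and `(2 ^ p - 2)/p ≥ 2` for odd `p`. -/
def StLD : Prop :=
  ∀ (p : ℕ) (Q : Type) [Group Q] [Finite Q] (ℓ : Type) [Finite ℓ] [MulAction Q ℓ] (C : Type)
    (L : ℓ → Finset C) (o : ℓ), p.Prime → IsPGroup p Q → MulAction.IsPretransitive Q ℓ →
    (∀ ω, ω ≠ o → kap p + 1 ≤ (L ω).card) → (L o).Nonempty →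
    ∃ c : ℓ → C, (∀ ω, c ω ∈ L ω) ∧
      ∀ q : Q, (∀ ω, c (q • ω) = c ω) → ∀ ω : ℓ, q • ω = ω

/-- MODULE LIN. Lines in the orbits of commuting `p`-groups of permutations. PROOF. Let `F` be the
subgroup generated by all `K i`; let `B` contain exactly one point of every `F`-orbit. (a) Let
`y ∈ K i` fix all points `z o`, `o ∈ B`, `z ∈ K i`. A point `ω` is `f o` with `o ∈ B`, `f ∈ F`, and
`f = f' z` with `z ∈ K i` and `f'` in the subgroup generated by the `K j`, `j ≠ i` (they commute with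
`K i`); `y ω = y f' z o = f' y z o = f' z o = ω`. (b) If `y o = z o'` with `y ∈ K i`, `z ∈ K j` then
`o, o'` are in the same `F`-orbit, so `o = o'`. If `i ≠ j` then `z⁻¹ y` fixes `o`; `y` and `z⁻¹` commute
and have coprime orders, so `y` is a power of `z⁻¹ y` and fixes `o`. -/
def StLIN : Prop :=
  ∀ (Ω : Type) [Finite Ω] (ι : Type) [Finite ι] (p : ι → ℕ) (K : ι → Subgroup (Perm Ω)),
    (∀ i, (p i).Prime) → Function.Injective p → (∀ i, IsPGroup (p i) (K i)) →
    (∀ i j, i ≠ j → ∀ y ∈ K i, ∀ z ∈ K j, y * z = z * y) →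
    ∃ B : Set Ω, (∀ i, ∀ y ∈ K i, (∀ o ∈ B, ∀ z ∈ K i, y (z o) = z o) → y = 1) ∧
      (∀ o ∈ B, ∀ o' ∈ B, ∀ i j, ∀ y ∈ K i, ∀ z ∈ K j, y o = z o' → o = o' ∧ (i = j ∨ y o = o))

/-- MODULE PER. Automorphisms of a product of nonabelian simple groups permute the factors. PROOF.
Let `F ω` be the subgroup of the elements `Pi.mulSingle ω a`. For an automorphism `φ` the subgroup
`K = φ (F ω)` is normal and isomorphic to the simple group `S ω`. `K ≠ 1`, so some `k ∈ K` has
`k ω' ≠ 1` for some `ω'`. Since the centre of `S ω'` is trivial, some commutator of `k` with an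
element of `F ω'` is `≠ 1`; it lies in `K ∩ F ω'`, a normal subgroup of `F ω'` (simple) so
`F ω' ≤ K`, and `F ω'` is normal in `K` (simple), so `K = F ω'`. This `ω'` is unique; define `σ φ ω`
to be it. `σ (φ ψ) = σ φ σ ψ` is clear (so the values are permutations), and inner automorphisms
preserve every `F ω`. -/
def StPER : Prop :=
  ∀ (Ω : Type) [Finite Ω] [DecidableEq Ω] (S : Ω → Type) [∀ ω, Group (S ω)],
    (∀ ω, IsSimpleGroup (S ω)) → (∀ ω, ∃ a b : S ω, a * b ≠ b * a) →
    ∃ σ : MulAut (∀ ω, S ω) →* Perm Ω,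
      (∀ (φ : MulAut (∀ ω, S ω)) (ω : Ω) (a : S ω), ∃ b : S (σ φ ω),
        φ (Pi.mulSingle ω a) = Pi.mulSingle (σ φ ω) b) ∧
      (∀ n : ∀ ω, S ω, σ (MulAut.conj n) = 1)

/-- MODULE COL. Size of a colour. `A` is a finite group (it will be `Aut S`), `I` a normal subgroup
(the inner automorphisms). PROOF. Let `E` be the set of pairs `(t, t') ∈ T × T` with `t t' ∈ I`; it has
`|T| |T ∩ I|` elements (for given `t` the `t' ∈ T` with `t t' ∈ I` form a coset of `T ∩ I`). An element
`β ∈ I` of the double coset `T α T`, `α ∈ I`, is `t α t' = (t t') (t'⁻¹ α t')`, so `t t' ∈ I`; so the set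
is the image of `E`. -/
def StCOL : Prop :=
  ∀ (A : Type) [Group A] [Finite A] (I T : Subgroup A) [I.Normal] (α : A), α ∈ I →
    Nat.card {β : A // β ∈ I ∧ ∃ t ∈ T, ∃ t' ∈ T, β = t * α * t'} ≤
      Nat.card T * Nat.card {t : A // t ∈ T ∧ t ∈ I}

/-- MODULE CHO (theorem: StLD → StLIN → StCHO). The choice along the lines. PROOF. Let `B` be as in StLIN.
For every `ω` fix `n0 ω ∈ g ω`. For `i` and `o ∈ B` let `ℓ` be the orbit of `o` under `K i` (a line).
Apply StLD to `Q = K i` acting on `ℓ` (transitively), colours `C i`, `L ω` = the image under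
`col i ω` of the set `F` given for `i, ω` (it has `kap (p i) + 1` elements) for `ω ≠ o`, and
`L o = {col i o (n0 o)}`; this gives a colouring `c` of `ℓ`. For `ω ∈ ℓ`, `ω ≠ o` let `n ω ∈ g ω` be such
that `col i ω (n ω) = c ω`. This is well defined: if `ω = y o = z o'` with `y ∈ K i`, `z ∈ K j`,
`o, o' ∈ B`, `ω ≠ o`, then `o = o'` and `i = j` (StLIN, second part). For all other `ω` let
`n ω = n0 ω`; in particular for `ω ∈ B`: if `ω = y o ∈ B`, `y ∈ K i`, then `o = ω` by StLIN with `z = 1`. So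
`col i ω (n ω) = c ω` for all `ω ∈ ℓ`. Let now `y ∈ K i` with `col i (y ω) (n (y ω)) = col i ω (n ω)` for all
`ω`. On every line of `i` the colouring is preserved by `y`, so `y` acts trivially on all lines of `i`,
and `y = 1` by StLIN, first part. -/
def StCHO : Prop :=
  ∀ (Ω : Type) [Finite Ω] (ι : Type) [Finite ι] (p : ι → ℕ) (K : ι → Subgroup (Perm Ω))
    (X : Ω → Type) (C : ι → Type) (col : ∀ i ω, X ω → C i) (g : ∀ ω, Set (X ω)),
    (∀ i, (p i).Prime) → Function.Injective p → (∀ i, IsPGroup (p i) (K i)) →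
    (∀ i j, i ≠ j → ∀ y ∈ K i, ∀ z ∈ K j, y * z = z * y) → (∀ ω, (g ω).Nonempty) →
    (∀ i ω, ∃ F : Finset (X ω), (∀ n ∈ F, n ∈ g ω) ∧ F.card = kap (p i) + 1 ∧
      ∀ n ∈ F, ∀ n' ∈ F, col i ω n = col i ω n' → n = n') →
    ∃ n : ∀ ω, X ω, (∀ ω, n ω ∈ g ω) ∧
      ∀ i, ∀ y ∈ K i, (∀ ω, col i (y ω) (n (y ω)) = col i ω (n ω)) → y = 1

/-- MODULE MN1 (theorem: StPER → StMN1). The relation `Rel`. PROOF. Reflexive: `y = r = 1`. Transitive:
products (`b` is determined by `a`; if `y₁ (single ω₁ a) = single ω₂ b`,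
`y₂ (single ω₂ b) = single ω₃ c` then `y₂ y₁ (single ω₁ a) = single ω₃ c`, the same for the `r`).
Symmetric: with `σ` of StPER, `σ y ω = ω'` (take `a ≠ 1`; `single ω' b = single ω'' b'` with
`b, b' ≠ 1` implies `ω' = ω''`), so for `b : S ω'` there is `a : S ω` with `y⁻¹ (single ω' b) = single ω a`,
i.e. `y (single ω a) = single ω' b`, and then `r (single ω (x a x⁻¹)) = single ω' (x' b x'⁻¹)`; so
`y⁻¹, r⁻¹` show the inverse relation. Last part: `t ∈ Res R ω` comes from `y ∈ R`, `y ^ (p ^ k) = 1`, so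
`single ω (t ^ (p ^ k) a) = single ω a`. -/
def StMN1 : Prop :=
  ∀ (Ω : Type) [Finite Ω] [DecidableEq Ω] (S : Ω → Type) [∀ ω, Group (S ω)],
    (∀ ω, IsSimpleGroup (S ω)) → (∀ ω, ∃ a b : S ω, a * b ≠ b * a) →
    ∀ R : Subgroup (MulAut (∀ ω, S ω)),
      (∀ ω (x : S ω), Rel R ω ω x x) ∧
      (∀ ω ω' (x : S ω) (x' : S ω'), Rel R ω ω' x x' → Rel R ω' ω x' x) ∧
      (∀ ω ω' ω'' (x : S ω) (x' : S ω') (x'' : S ω''), Rel R ω ω' x x' → Rel R ω' ω'' x' x'' →
        Rel R ω ω'' x x'') ∧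
      ∀ p : ℕ, IsPGroup p R → ∀ ω, IsPGroup p (Res R ω)

/-- MODULE MN2 (theorem: StMN1 → StPER → StCOL → StMN2). Many colours. PROOF. Let `T = Res R ω`,
`I` = the inner automorphisms (range of `MulAut.conj`, normal), `β = |T| * |T ∩ I|`. If
`Rel R ω ω x x'` with `y, r` then `y, r` induce `t, t' ∈ T` (they map the factor `ω` to itself and are
injective, `S ω` is finite, so bijective), and `t' = conj x' * t * (conj x)⁻¹`, so
`conj x' = t' * conj x * t⁻¹ ∈ T (conj x) T`. `MulAut.conj` is injective on `S ω` (trivial centre), so by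
StCOL for every `x` at most `β` elements `x'` are related to `x`. `Rel R ω ω` is an equivalence relation
(StMN1), so the `c * n`, `n ∈ g`, lie in at least `g.card / β > κ` classes (`β ≥ 1`); choose `n` from
`κ + 1` of them. -/
def StMN2 : Prop :=
  ∀ (Ω : Type) [Finite Ω] [DecidableEq Ω] (S : Ω → Type) [∀ ω, Group (S ω)] [∀ ω, Finite (S ω)],
    (∀ ω, IsSimpleGroup (S ω)) → (∀ ω, ∃ a b : S ω, a * b ≠ b * a) →
    ∀ (R : Subgroup (MulAut (∀ ω, S ω))) (ω : Ω) (c : S ω) (g : Finset (S ω)) (κ : ℕ),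
      κ * Nat.card (Res R ω) *
        Nat.card {t : MulAut (S ω) // t ∈ Res R ω ∧ ∃ a : S ω, t = MulAut.conj a} < g.card →
      ∃ F : Finset (S ω), (∀ n ∈ F, n ∈ g) ∧ F.card = κ + 1 ∧
        ∀ n ∈ F, ∀ n' ∈ F, Rel R ω ω (c * n) (c * n') → n = n'

/-- MODULE MN (theorem: StPER → StMN1 → StMN2 → StCHO → StMN). The main lemma. PROOF. If `ι` is empty take
`n = 1`. Let `σ` be as in StPER; `K i` = image of `R i` under `σ`, a `p i`-group; for `i ≠ j` they commute
(inner automorphisms have `σ = 1`). Let `g ω` be the set of the `n ∈ S ω` such that for all `i` and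
`t ∈ Res (R i) ω`: `conj (c i ω * n) * t * (conj (c i ω * n))⁻¹ ∈ Res (R i) ω → t = 1` (as in Ample, with
`T i = Res (R i) ω`, a `p i`-group by StMN1). By Ample and StMN2 for all `i, ω` there are
`kap (p i) + 1` elements `n ∈ g ω` with pairwise unrelated `c i ω * n`; in particular `g ω` is not
empty. For fixed `i` the relation `Rel (R i)` on the sigma type of the `S ω` is an equivalence
relation by StMN1; let `C i` be the quotient and `col i ω n` the class of `(ω, c i ω * n)`. StCHO gives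
`n`. Let `x = c i * n`, `y ∈ R i` and `r = conj x * y * (conj x)⁻¹ ∈ R i`. If
`y (single ω a) = single (σ y ω) b` then `r (single ω (x ω * a * (x ω)⁻¹)) = conj x (y (single ω a)) =
single (σ y ω) (x (σ y ω) * b * (x (σ y ω))⁻¹)` (`(conj x)⁻¹` maps `single ω (x ω * a * (x ω)⁻¹)` to
`single ω a`), so `Rel (R i) ω (σ y ω) (x ω) (x (σ y ω))`, i.e. `col i (σ y ω) (n (σ y ω)) = col i ω (n ω)`,
for all `ω`. By StCHO `σ y = 1`. So `y` induces `t ∈ Res (R i) ω`, and `r` induces
`conj (x ω) * t * (conj (x ω))⁻¹ ∈ Res (R i) ω`; since `n ω ∈ g ω`, `t = 1`. So `y` is trivial on all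
factors, `y = 1` (the factors generate the product, e.g. Pi.mulSingle induction or
MonoidHom.pi_ext / MulEquiv ext on singles for finite `Ω`). -/
def StMN : Prop :=
  ∀ (Ω : Type) [Finite Ω] (S : Ω → Type) [∀ ω, Group (S ω)] [∀ ω, Finite (S ω)],
    (∀ ω, IsSimpleGroup (S ω)) → (∀ ω, ∃ a b : S ω, a * b ≠ b * a) → (∀ ω, Ample (S ω)) →
    ∀ (ι : Type) [Finite ι] (p : ι → ℕ) (R : ι → Subgroup (MulAut (∀ ω, S ω)))
      (c : ι → ∀ ω, S ω), (∀ i, (p i).Prime) → Function.Injective p →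
      (∀ i, IsPGroup (p i) (R i)) →
      (∀ i j, i ≠ j → ∀ y ∈ R i, ∀ z ∈ R j, ∃ n : (∀ ω, S ω),
        y * z = MulAut.conj n * (z * y)) →
      ∃ n : ∀ ω, S ω, ∀ i, ∀ y ∈ R i,
        MulAut.conj (c i * n) * y * (MulAut.conj (c i * n))⁻¹ ∈ R i → y = 1

/-- MODULE LF1. Sylow subgroups and a normal subgroup with trivial centre. PROOF. Let
`π : G → G ⧸ N`. The images `π (P i)` are Sylow subgroups of `G ⧸ N`; by `SyncFor (G ⧸ N) p` there is
`h ∈ G` with `π (P i) ∩ π (P i) ^ π h = O_{p i}(G ⧸ N)` for all `i` (where `P ^ x = x⁻¹ P x`; `O_q` is the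
intersection of all Sylow `q`-subgroups). Let `L i` be the preimage of `O_{p i}(G ⧸ N)`, normal in `G`,
and `R i = P i ∩ L i`, a Sylow `p i`-subgroup of `L i`; since `L i / N` is a `p i`-group, `L i = R i N`.
`(R i) ^ h` is also a Sylow `p i`-subgroup of `L i`, so it is `(R i) ^ l` with `l ∈ L i = R i N`, so
`(R i) ^ h = (R i) ^ (c i)` for some `c i ∈ N`. For `n ∈ N` and `x = h n`: if `y ∈ P i` and
`x y x⁻¹ ∈ P i` then `π y ∈ π (P i) ∩ π (P i) ^ π h`, so `y ∈ L i`, `y ∈ R i`, and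
`x y x⁻¹ ∈ P i ∩ L i = R i`, so `y ∈ (R i) ^ (h n) = (R i) ^ (c i n)`. For `i ≠ j`, `y ∈ R i`, `z ∈ R j`: `π y` and
`π z` commute (they lie in normal subgroups of coprime orders), so `y z = n z y` with `n ∈ N`. Last
part: let `K` be the set of elements of `L i` that commute with all elements of `N`; it is a normal
subgroup of `G` and meets `N` trivially, so it embeds in `L i / N` and is a normal `p i`-subgroup of
`G`, contained in all Sylow `p i`-subgroups. -/
def StLF1 : Prop :=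
  ∀ (G : Type) [Group G] [Finite G] (N : Subgroup G) [N.Normal],
    (∀ m ∈ N, (∀ m' ∈ N, m * m' = m' * m) → m = 1) →
    ∀ (ι : Type) [Finite ι] (p : ι → ℕ), (∀ i, (p i).Prime) → Function.Injective p →
      SyncFor (G ⧸ N) p → ∀ P : ∀ i, Sylow (p i) G,
      ∃ (h : G) (R : ι → Subgroup G) (c : ι → G), (∀ i, c i ∈ N) ∧ (∀ i, IsPGroup (p i) (R i)) ∧
        (∀ i j, i ≠ j → ∀ y ∈ R i, ∀ z ∈ R j, ∃ n ∈ N, y * z = n * (z * y)) ∧
        (∀ n ∈ N, ∀ i, ∀ y ∈ P i, (h * n) * y * (h * n)⁻¹ ∈ P i →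
          y ∈ R i ∧ (c i * n) * y * (c i * n)⁻¹ ∈ R i) ∧
        (∀ i, ∀ y ∈ R i, (∀ m ∈ N, y * m = m * y) → ∀ Q : Sylow (p i) G, y ∈ Q)

/-- MODULE LFT (theorem: StMN → StLF1 → StLFT). Lifting through a product of nonabelian simple groups.
PROOF. `N` has trivial centre (product of groups with trivial centre). Let `P i` be Sylow
`p i`-subgroups of `G`, and `h, R i, c i` as in StLF1. Let `ρ : G → MulAut (∀ ω, S ω)` be conjugation on
`N` transported by `e : N ≃* ∀ ω, S ω` (MulAut.conjNormal, MulAut.congr), `R' i` the image of `R i`; for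
`i ≠ j` the condition of StMN holds with `e` of the `n` of StLF1 (`ρ n = conj (e n)` for `n ∈ N`). By StMN
(with `e (c i)`) there is `n ∈ N` such that `y ∈ R i`, `(c i n) y (c i n)⁻¹ ∈ R i` implies `ρ y = 1`, i.e. `y`
commutes with `N`. Let `x = h n`. Every `y ∈ P i ∩ x⁻¹ (P i) x` has `y ∈ R i` and
`(c i n) y (c i n)⁻¹ ∈ R i`, so it commutes with `N` and lies in all Sylow `p i`-subgroups. The other
inclusion is clear (`x⁻¹ (P i) x` is a Sylow subgroup). -/
def StLFT : Prop :=
  ∀ (G : Type) [Group G] [Finite G] (N : Subgroup G) [N.Normal] (Ω : Type) [Finite Ω]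
    (S : Ω → Type) [∀ ω, Group (S ω)],
    (∀ ω, IsSimpleGroup (S ω)) → (∀ ω, ∃ a b : S ω, a * b ≠ b * a) → (∀ ω, Ample (S ω)) →
    Nonempty (N ≃* ∀ ω, S ω) →
    ∀ (ι : Type) [Finite ι] (p : ι → ℕ), (∀ i, (p i).Prime) → Function.Injective p →
      SyncFor (G ⧸ N) p → SyncFor G p

/-- MODULE CH (theorem: StLFT → StCH). Series. PROOF. Downward induction: `SyncFor (G ⧸ N (j+1)) p` implies
`SyncFor (G ⧸ N j) p`. Let `G' = G ⧸ N j`, `M` the image of `N (j+1)` in `G'`, normal, `G' ⧸ M ≃* G ⧸ N (j+1)`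
(QuotientGroup.quotientQuotientEquivQuotient); SyncFor is invariant under isomorphisms (an
isomorphism induces a bijection of the Sylow subgroups; see module ISO, theorem
Pool.Agent.Helper64.SA.pISO and its file for helper lemmas). Simple case: StLFT for `G'`, `M`. Nilpotent
case: the landed theorem Pool.Agent.Results.MP_21f9f3_al.NilpotentLifting.result, part (1), or
Pool.Agent.Helper88.SL.chain as used there, with `k = 1` for `G'` and `N 0 = ⊥`, `N 1 = M` (`StarAt` for
`G' ⧸ ⊥` from `StarAt G'` by the isomorphism). Finally `G ⧸ N 0 = G ⧸ ⊥ ≃* G`. (See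
Pool.Agent.Helper69.SA.M_FIN for how the landed theorem is used.) -/
def StCH : Prop :=
  ∀ (G : Type) [Group G] [Finite G] (k : ℕ) (N : ℕ → Subgroup G) [∀ j, (N j).Normal],
    N 0 = ⊥ → (∀ j < k, N j ≤ N (j + 1)) →
    ∀ (ι : Type) [Finite ι] (p : ι → ℕ), (∀ i, (p i).Prime) → Function.Injective p →
    (∀ j < k,
      (Group.IsNilpotent ((N (j + 1)).map (QuotientGroup.mk' (N j))) ∧
        ∀ i, StarAt (G ⧸ N j) (p i)) ∨
      (∃ (Ω : Type) (_ : Finite Ω) (S : Ω → Type) (_ : ∀ ω, Group (S ω)),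
        (∀ ω, IsSimpleGroup (S ω)) ∧ (∀ ω, ∃ a b : S ω, a * b ≠ b * a) ∧ (∀ ω, Ample (S ω)) ∧
        Nonempty (((N (j + 1)).map (QuotientGroup.mk' (N j))) ≃* ∀ ω, S ω))) →
    SyncFor (G ⧸ N k) p → SyncFor G p

/-- MODULE AU1. Automorphisms of `A_m`, `m ≥ 7`, preserve `3`-cycles. PROOF. Let `a` be a `3`-cycle and
`b = φ a`; `b` has order `3`, so its cycle type is `replicate k 3`, `1 ≤ k`, `3 k ≤ m`. Let `X k` be the set of
elements of this cycle type, `|X k| = m! / ((m - 3k)! 3^k k!)`. All `3`-cycles are conjugate in `A_m`, so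
the conjugacy class of `b` in `A_m` has `|X 1|` elements, and it has at least `|X k| / 2` elements (the
class of `b` in `Perm (Fin m)` is `X k`, and `A_m` has index `2`). So `|X k| ≤ 2 |X 1|`, i.e.
`(m-3)! / (m-3k)! ≤ 2 * 3^(k-1) * k!`. For `k = 2`: `(m-3)(m-4)(m-5) ≥ 24 > 12`. For `k ≥ 3`:
`(m-3)!/(m-3k)! ≥ (3k-3)! > 2 * 3^(k-1) * k!` (`720 > 108` for `k = 3`, induction). So `k = 1`. -/
def StAU1 : Prop :=
  ∀ (m : ℕ) (φ : MulAut (alternatingGroup (Fin m))), 7 ≤ m → ∀ a : alternatingGroup (Fin m),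
    (a : Perm (Fin m)).IsThreeCycle → (φ a : Perm (Fin m)).IsThreeCycle

/-- MODULE AUT (theorem: StAU1 → StAUT). Automorphisms of `A_m`, `m ≥ 7`, are induced by permutations.
PROOF. For `3`-cycles `a, b` the product `a b` has order `2` iff `a = (x y z)`, `b = (x y w)` with
four different points (disjoint supports: order `3`; one common point: a `5`-cycle; two common points,
opposite direction `(x y z) (y x w)`: order `3`; equal supports: `a b = a²` or `1`). Let
`c i = (0 1 i)`, `2 ≤ i < m`; `c i c j` has order `2` for `i ≠ j`. So the images `d i = φ (c i)` are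
`3`-cycles, and any two of them have a common directed edge and a third point that is different. CLAIM:
all `d i` contain the same directed edge `x → y`: let `d 2 = (x y z)`, `d 3 = (x y w)`; another
`d i` which does not contain `x → y` contains one of `y → z`, `z → x` and one of `y → w`, `w → x`:
impossible for a `3`-cycle (`y → z` and `y → w`; `z → x` and `w → x`; the others need four points). So
`d i = (x y (z i))` with different `z i ∉ {x, y}`; `τ : 0 ↦ x, 1 ↦ y, i ↦ z i` is a permutation with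
`d i = τ (c i) τ⁻¹`. The `c i` generate `A_m` (every `3`-cycle is a product of them:
`(0 i j) = …`, `(i j k) = …`, and the `3`-cycles generate, Perm.closure_three_cycles_eq_alternating), so
`φ a = τ a τ⁻¹` for all `a`. -/
def StAUT : Prop :=
  ∀ (m : ℕ) (φ : MulAut (alternatingGroup (Fin m))), 7 ≤ m → ∃ τ : Perm (Fin m),
    ∀ a : alternatingGroup (Fin m), (φ a : Perm (Fin m)) = τ * a * τ⁻¹

/-- MODULE TRB. Arbitrary `p`-subgroups of `Perm (Fin m)` against even permutations. PROOF. Let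
`P` be a Sylow `p`-subgroup of `Perm (Fin m)` that contains `H`. Some odd permutation `g` normalizes
`P`: for `p = 2` because `P` contains a transposition (conjugate of a Sylow subgroup containing one);
for odd `p`, `P ≤ A_m` is a Sylow subgroup of `A_m`, and the Frattini argument applies
(Sylow.normalizer_sup_eq_top; see Pool.Agent.Helper80.SA.M_TR). If `x` is even and bad for `H`, then it
is bad for `P`, and so is the odd `x g`; so `2 * #{x even, bad for H} ≤ bad P`. The last claims: for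
`p = 2` let `P0 = P ∩ A_m`, `|P0| = |P| / 2`; `H ∩ A_m ≤ P0` so `2 |H| |H ∩ A_m| ≤ 2 |P| |P| / 2 = |P|²`.
For odd `p`: `|H| ≤ |P|`. -/
def StTRB : Prop :=
  ∀ (m p : ℕ) (H : Subgroup (Perm (Fin m))), 2 ≤ m → p.Prime → IsPGroup p H →
    ∃ P : Sylow p (Perm (Fin m)), H ≤ (P : Subgroup (Perm (Fin m))) ∧
      2 * Nat.card {x : Perm (Fin m) // x ∈ alternatingGroup (Fin m) ∧ Bad H x} ≤
        bad (P : Subgroup (Perm (Fin m))) ∧
      kap p * (Nat.card H * Nat.card {t : Perm (Fin m) // t ∈ H ∧ t ∈ alternatingGroup (Fin m)}) ≤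
        (Nat.card (P : Subgroup (Perm (Fin m)))) ^ 2

/-- MODULE CM2 (theorem: StCER → StRIG → StKEY → StCM2). Certificates of part 3. PROOF. As CM (see
Pool.Agent.Helper78.SA.M_CM) with the lists `dbt7`, `dbt9`, `dbt10`, `dbt12` (checked by a program). -/
def StCM2 : Prop :=
  ∀ m : ℕ, m = 7 ∨ m = 9 ∨ m = 10 ∨ m = 12 →
    need2 m * (Nat.card (Q0 m)) ^ 2 + bad (Q0 m) ≤ m.factorial

/-- MODULE NM2. Numerical check for `22 ≤ m < 150` with a margin (checked by a program). PROOF. As NUM,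
see Pool.Agent.Helper15.SA.M_NUM. -/
def StNM2 : Prop :=
  ∀ m : ℕ, 22 ≤ m → m < 150 →
    W (RT 2) 2 m + W (RT 3) 3 m / 2 + W (RT 5) 5 m / 4 + W (RT 7) 7 m / 6 + m.factorial / 10000 +
      2 * 4 ^ (m - 1) < m.factorial

/-- MODULE NS2. Small numerical values of part 3 (checked by a program). PROOF. As NSM, see
Pool.Agent.Helper40.SA.M_NSM. -/
def StNS2 : Prop :=
  (∀ m : ℕ, m = 11 ∨ m = 13 ∨ m = 15 ∨ (17 ≤ m ∧ m ≤ 21) →
    W A2 2 m + odds m + 2 * 4 ^ (m - 1) < m.factorial) ∧
  (∀ m : ℕ, m = 14 ∨ m = 16 → W A2 2 m + odds m + 2 * 4 ^ (m - 1) <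
    m.factorial + (m / 2 * (m / 2 - 1)) ^ 2 * 4 * (m - 4).factorial) ∧
  (odds 7 + 2 * 4 ^ 4 < 9 * 4 ^ 4 ∧ odds 7 + 2 * 3 ^ 6 < 9 * 4 ^ 4) ∧
  (odds 9 + 2 * 4 ^ 7 < 9 * 4 ^ 7 ∧ odds 9 + 2 * 3 ^ 8 < 9 * 4 ^ 7) ∧
  (odds 10 + 2 * 4 ^ 8 < 18 * 4 ^ 8 ∧ odds 10 + 2 * 3 ^ 9 < 18 * 4 ^ 8) ∧
  (odds 12 + 2 * 4 ^ 11 < 50 * 4 ^ 10) ∧
  (padicValNat 2 (Nat.factorial 7) = 4)

/-- MODULE LOC (theorem: StBW → StUB2 → StTRN → StCNT → StGDT → StGDX → StSYL → StTOT → StCM2 → StAN2 → StAN3 →
StA57 → StNM2 → StNSM → StNS2 → StLOC). The local count. PROOF. As in SY2 and ALT (files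
Pool.Agent.Helper60.SA.M_SY2, Pool.Agent.Helper12.SA.M_ALT). By StTOT the sum of the `bad (P i)` is at
most `b2 + b3 + b5 + b7 + m!/10000`, `b3 = W A3 3 m / 2` (`m ≤ 21`) or `W (RT 3) 3 m / 2`,
`b5 = W (RT 5) 5 m / 4`, `b7 = W (RT 7) 7 m / 6`, and `b2`: for `m = 7, 9, 10, 12` by StSYL and StCM2
`b2 = m! - need2 m * 4 ^ v`, `v = padicValNat 2 m!` (`4, 7, 8, 10`; StNSM, StNS2); for `m = 14, 16` by StUB2
as in SY2; for `m = 11, 13, 15, 17, …, 21` `W A2 2 m`; for `m ≥ 22` `W (RT 2) 2 m`. Size of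
`P j`, `q = p j`, `|P j| = q ^ v`, `(q - 1) v ≤ m - 1` (Legendre; `m ≥ 1`): for `q = 2`
`|P j| ≤ 2 ^ (m-1)`, and exactly `2 ^ v` for `m = 7, 9, 10`; for odd `q`: `q ≤ 3 ^ ((q-1)/2)`, so
`|P j| ^ 2 ≤ 3 ^ (m-1)`. So `2 |P j| ^ 2 ≤ 2 * 4 ^ (m-1)` in all cases, and for `m = 7, 9, 10` it is at
most `2 * 4 ^ v` or `2 * 3 ^ (m-1)`. Now StNS2, StNM2, and for `m ≥ 150`:
`b2 + b3 + b5 + b7 + m!/10000 ≤ (3/4 + 1/20 + 1/400 + 1/48 + 1/10000) m!` and `2 * 4 ^ (m-1) ≤ m!/100`. -/
def StLOC : Prop :=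
  ∀ (m : ℕ), m = 7 ∨ 9 ≤ m → ∀ (ι : Type) [Fintype ι] (p : ι → ℕ)
    (P : ∀ i, Sylow (p i) (Perm (Fin m))), (∀ i, (p i).Prime) → Function.Injective p →
    ∀ j, 2 * (Nat.card (P j : Subgroup (Perm (Fin m)))) ^ 2 +
      ∑ i, bad (P i : Subgroup (Perm (Fin m))) < m.factorial

/-- MODULE AM1 (theorem: StAUT → StAM1). Automorphisms as permutations. PROOF. By StAUT every
automorphism of `A_m` is conjugation by a permutation `τ`, which is unique as the centralizer of `A_m`
in `Perm (Fin m)` is trivial (`m ≥ 4`). So `τ ↦` conjugation by `τ` is an isomorphism of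
`Perm (Fin m)` onto `MulAut (A_m)`, the inner automorphisms correspond to the even permutations
(uniqueness of `τ`). `H` is the preimage of `T`. -/
def StAM1 : Prop :=
  ∀ m : ℕ, 7 ≤ m → ∀ T : Subgroup (MulAut (alternatingGroup (Fin m))),
    ∃ H : Subgroup (Perm (Fin m)), (∀ q, IsPGroup q T → IsPGroup q H) ∧ Nat.card H = Nat.card T ∧
      Nat.card {t : Perm (Fin m) // t ∈ H ∧ t ∈ alternatingGroup (Fin m)} =
        Nat.card {t : MulAut (alternatingGroup (Fin m)) // t ∈ T ∧ ∃ a, t = MulAut.conj a} ∧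
      ∀ x : alternatingGroup (Fin m), Bad H (x : Perm (Fin m)) ↔
        ∃ t ∈ T, t ≠ 1 ∧ MulAut.conj x * t * (MulAut.conj x)⁻¹ ∈ T

/-- MODULE AMP (theorem: StAM1 → StTRB → StLOC → StAMP). Alternating groups are ample. PROOF. Let
`S = A_m`, `T i`, `c i` be given and `H i` as in StAM1. `n ∈ A_m` is not in the good set iff for some `i` the
element `c i * n` is bad for `H i`. So the number of `n` that are not good is at most the sum over `i` of
`#{x ∈ A_m | Bad (H i) x}` (`n ↦ c i * n` is a bijection of `A_m`), which by StTRB is at most half the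
sum of the `bad (P i)`; so by StLOC
`2 * #good ≥ m! - ∑ bad (P i) > 2 |P j| ^ 2 ≥ 2 * kap (p j) * |H j| * |H j ∩ A_m|`. -/
def StAMP : Prop := ∀ m : ℕ, m = 7 ∨ 9 ≤ m → Ample (alternatingGroup (Fin m))

/-- MODULE FI2 (theorem: StCH → StAMP → StSYM → StALT → StSML → StPRD → StISO → StFI2). The final theorem.
PROOF. As in Pool.Agent.Helper69.SA.M_FIN the quotient `G ⧸ N k` satisfies `Q1`, so with `StarAt` at `k` the
synchronized statement holds for it. Apply StCH with `S ω = alternatingGroup (Fin (m ω))`: simple by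
alternatingGroup.isSimpleGroup (Mathlib, degree at least 5), not commutative, ample by StAMP. -/
def StFI2 : Prop :=
  ∀ (G : Type) [Group G] [Finite G] (k : ℕ) (N : ℕ → Subgroup G) [∀ j, (N j).Normal],
    N 0 = ⊥ → (∀ j < k, N j ≤ N (j + 1)) →
    ∀ (ι : Type) [Finite ι] (p : ι → ℕ), (∀ i, (p i).Prime) → Function.Injective p →
    (∀ j < k,
      (Group.IsNilpotent ((N (j + 1)).map (QuotientGroup.mk' (N j))) ∧
        ∀ i, StarAt (G ⧸ N j) (p i)) ∨
      (∃ (Ω : Type) (_ : Finite Ω) (m : Ω → ℕ), (∀ ω, m ω = 7 ∨ 9 ≤ m ω) ∧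
        Nonempty (((N (j + 1)).map (QuotientGroup.mk' (N j))) ≃*
          ∀ ω, alternatingGroup (Fin (m ω))))) →
    ∀ (κ : Type) [Finite κ] (H : κ → Type) [∀ c, Group (H c)],
    (∀ c, ∃ m : ℕ, Nonempty (H c ≃* Perm (Fin m)) ∨ Nonempty (H c ≃* alternatingGroup (Fin m))) →
    Nonempty ((G ⧸ N k) ≃* ∀ c, H c) → (∀ i, StarAt (G ⧸ N k) (p i)) → SyncFor G p

end Pool.Agent.Helper17.SA
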