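import Pool.Agent.Helper17.SA.Main
import Pool.Agent.Helper17.SA.St3
import Pool.Agent.Helper13.SA.M_PER
import Pool.Agent.Helper15.SA.M_MN2
import Pool.Agent.Helper2.SA.M_LOC
import Pool.Agent.Helper2.SA.M_NS2
import Pool.Agent.Helper28.SA.M_NM2
import Pool.Agent.Helper36.SA.M_LIN
import Pool.Agent.Helper38.SA.M_CHO
import Pool.Agent.Helper40.SA.M_CM2
import Pool.Agent.Helper57.SA.M_LFT
import Pool.Agent.Helper6.SA.M_COL
import Pool.Agent.Helper60.SA.M_CH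
import Pool.Agent.Helper62.SA.M_LF1
import Pool.Agent.Helper72.SA.M_MN
import Pool.Agent.Helper76.SA.M_TRB
import Pool.Agent.Helper78.SA.M_AMP
import Pool.Agent.Helper80.SA.M_MN1
import Pool.Agent.Helper84.SA.M_LD
import Pool.Agent.Helper90.SA.M_AUT
import Pool.Agent.Helper92.SA.M_AU1
import Pool.Agent.Helper98.SA.M_AM1

/-!
# Lifting through products of simple groups: assembly
-/

set_option autoImplicit false

namespace Pool.Agent.Helper17.SA

theorem kLD : StLD := Pool.Agent.Helper84.SA.LD.pLD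
theorem kLIN : StLIN := Pool.Agent.Helper36.SA.pLIN
theorem kPER : StPER := Pool.Agent.Helper13.SA.PER.pPER
theorem kCOL : StCOL := Pool.Agent.Helper6.SA.pCOL
theorem kCHO : StCHO := Pool.Agent.Helper38.SA.pCHO kLD kLIN
theorem kMN1 : StMN1 := Pool.Agent.Helper80.SA.pMN1 kPER
theorem kMN2 : StMN2 := Pool.Agent.Helper15.SA.pMN2 kMN1 kPER kCOL
theorem kMN : StMN := Pool.Agent.Helper72.SA.pMN kPER kMN1 kMN2 kCHO
theorem kLF1 : StLF1 := Pool.Agent.Helper62.SA.LF1.pLF1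
theorem kLFT : StLFT := Pool.Agent.Helper57.SA.pLFT kMN kLF1
theorem kCH : StCH := Pool.Agent.Helper60.SA.pCH kLFT
theorem kAU1 : StAU1 := Pool.Agent.Helper92.SA.pAU1
theorem kAUT : StAUT := Pool.Agent.Helper90.SA.pAUT kAU1
theorem kTRB : StTRB := Pool.Agent.Helper76.SA.pTRB
theorem kCM2 : StCM2 := Pool.Agent.Helper40.SA.pCM2 kCER kRIG kKEY
theorem kNM2 : StNM2 := Pool.Agent.Helper28.SA.pNM2
theorem kNS2 : StNS2 := Pool.Agent.Helper2.SA.pNS2
theorem kLOC : StLOC := Pool.Agent.Helper2.SA.pLOC kBW kUB2 kTRN kCNT kGDT kGDX kSYL kTOT kCM2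
  kAN2 kAN3 kA57 kNM2 kNSM kNS2
theorem kAM1 : StAM1 := Pool.Agent.Helper98.SA.pAM1 kAUT
theorem kAMP : StAMP := Pool.Agent.Helper78.SA.pAMP kAM1 kTRB kLOC

end Pool.Agent.Helper17.SA
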