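import Pool.Agent.Helper17.SA.St5

/-!
# A counting criterion for ample groups
-/

set_option autoImplicit false

open scoped Pointwise

namespace Pool.Agent.Helper17.SA

/-- The sum over the elements `y` of order `p` of `T` of `|C_S(y)|` times the number of elements of `T`
that are conjugate to `y` under inner automorphisms. -/
noncomputable def mom (S : Type) [Group S] (T : Subgroup (MulAut S)) (p : ℕ) : ℕ :=
  Nat.card {x : MulAut S × MulAut S × S // x.1 ∈ T ∧ orderOf x.1 = p ∧ x.2.1 ∈ T ∧
    (∃ a : S, x.2.1 = MulAut.conj a * x.1 * (MulAut.conj a)⁻¹) ∧ x.1 x.2.2 = x.2.2}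

/-- MODULE CRI. Counting criterion. PROOF. Let `ι, p, T, c` and `j` be as in Ample, `T = T i`, `q = p i`, `c = c i`.
If `n ∈ S` is bad for `T`, that is `conj (c n) t (conj (c n))⁻¹ ∈ T` for some `t ∈ T`, `t ≠ 1`, then this
holds for a power `t` of order `q` and its `q - 1` powers `≠ 1`. So `(q - 1) * #bad` is at most the number of
pairs `(n, t)`, `t ∈ T` of order `q`, `t' = conj (c n) t (conj (c n))⁻¹ ∈ T`. For given `t, t'` with `t'`
conjugate to `t` under inner automorphisms the `n` with this property form a coset of
`C_S(t) = {a | t a = a}` (`conj a` commutes with `t` iff `t a = a` up to the centre; if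
`conj (c n)` and `conj (c n')` both map `t` to `t'` then `conj (n⁻¹ n')` commutes with `t`, so
`(t b) b⁻¹` is central for `b = n⁻¹ n'`; the hypothesis that the centre is trivial gives `t b = b`), so
there are `|C_S(t)|` of them; the sum is `mom S T q`. So the number of bad `n` is at most
`mom S T q / (q - 1)`; summation over `i` gives the claim (for infinite index types nothing is to be
shown; use a Fintype instance on the finite type `ι`). -/
def StCRI : Prop :=
  ∀ (S : Type) [Group S] [Finite S], (∀ z : S, (∀ a : S, z * a = a * z) → z = 1) →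
    (∀ (ι : Type) [Fintype ι] (p : ι → ℕ), (∀ i, (p i).Prime) → Function.Injective p →
      ∀ T : ι → Subgroup (MulAut S), (∀ i, IsPGroup (p i) (T i)) → ∀ j,
        ∑ i, mom S (T i) (p i) / (p i - 1) + kap (p j) * Nat.card (T j) *
          Nat.card {t : MulAut S // t ∈ T j ∧ ∃ a : S, t = MulAut.conj a} < Nat.card S) →
    Ample S

end Pool.Agent.Helper17.SA
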