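import Pool.Agent.Helper17.SA.St3

/-!
# Statements of the modules of project SA, part 4: the alternating groups of degrees 5, 6, 8

Every `St..` is a proposition with a complete proof in its docstring. THEOREM of this part: Q1 holds
for every finite group all of whose quotients have `(*)` and all of whose nonabelian composition
factors are alternating groups.
-/

set_option autoImplicit false

open scoped Pointwise

namespace Pool.Agent.Helper17.SA

open Equiv

/-- The double coset of `n0` is regular for the subgroups `V'`, `V`. -/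
def Rg {S : Type} [Group S] (V' V : Subgroup S) (n0 : S) : Prop :=
  ∀ y ∈ V, n0 * y * n0⁻¹ ∈ V' → y = 1

/-- `n` lies in the double coset `V' n0 V`. -/
def InD {S : Type} [Group S] (V' V : Subgroup S) (n0 n : S) : Prop :=
  ∃ a ∈ V', ∃ b ∈ V, n = a * n0 * b

/-- A finite group `S` has property Hit: it has `(*)` at `2`, and every regular double coset
`V' n0 V` of Sylow `2`-subgroups contains elements that are good for given `p i`-subgroups `T i` of
`Aut S` (`p i` distinct odd primes) and shifts `c i`, with two different colours for `T j`. -/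
def Hit (S : Type) [Group S] : Prop :=
  (∃ (V : Sylow 2 S) (n0 : S), Rg (V : Subgroup S) V n0) ∧
  ∀ (V V' : Sylow 2 S) (n0 : S), Rg (V' : Subgroup S) V n0 →
    ∀ (ι : Type) [Finite ι] (p : ι → ℕ), (∀ i, (p i).Prime) → Function.Injective p →
      (∀ i, p i ≠ 2) → ∀ (T : ι → Subgroup (MulAut S)) (c : ι → S), (∀ i, IsPGroup (p i) (T i)) →
      ∀ j, ∃ n n' : S, InD (V' : Subgroup S) V n0 n ∧ InD (V' : Subgroup S) V n0 n' ∧
        (∀ i, ∀ t ∈ T i, MulAut.conj (c i * n) * t * (MulAut.conj (c i * n))⁻¹ ∈ T i → t = 1) ∧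
        (∀ i, ∀ t ∈ T i, MulAut.conj (c i * n') * t * (MulAut.conj (c i * n'))⁻¹ ∈ T i → t = 1) ∧
        ∀ t ∈ T j, ∀ t' ∈ T j, MulAut.conj (c j * n') ≠ t * MulAut.conj (c j * n) * t'

/-- Property Hit for subgroups of `S` instead of subgroups of `Aut S`. -/
def HitIn (S : Type) [Group S] : Prop :=
  ∀ (V V' : Sylow 2 S) (n0 : S), Rg (V' : Subgroup S) V n0 →
    ∀ (ι : Type) [Finite ι] (p : ι → ℕ), (∀ i, (p i).Prime) → Function.Injective p →
      (∀ i, p i ≠ 2) → ∀ (H : ∀ i, Sylow (p i) S) (c : ι → S) (j : ι),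
      ∃ n n' : S, InD (V' : Subgroup S) V n0 n ∧ InD (V' : Subgroup S) V n0 n' ∧
        (∀ i, ¬ Bad (H i : Subgroup S) (c i * n)) ∧ (∀ i, ¬ Bad (H i : Subgroup S) (c i * n')) ∧
        ∀ a ∈ H j, ∀ b ∈ H j, c j * n' ≠ a * (c j * n) * b

/-- In every regular double coset of Sylow `2`-subgroups and for every Sylow `p`-subgroup `P`, at most
`M1` elements are bad for `P` and at most `M2` are bad or in a given `P`-double coset. -/
def Cnt (S : Type) [Group S] (p M1 M2 : ℕ) : Prop :=
  ∀ (V V' : Sylow 2 S) (n0 : S), Rg (V' : Subgroup S) V n0 → ∀ (P : Sylow p S) (c x : S),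
    Nat.card {n : S // InD (V' : Subgroup S) V n0 n ∧ Bad (P : Subgroup S) (c * n)} ≤ M1 ∧
    Nat.card {n : S // InD (V' : Subgroup S) V n0 n ∧
      (Bad (P : Subgroup S) (c * n) ∨ ∃ a ∈ P, ∃ b ∈ P, c * n = a * x * b)} ≤ M2

/-- MODULE REG. `(*)` at `2` for `A_5, A_6, A_8`. PROOF. Let `V` be the group of the even elements of
`Q0 m`, of order `4, 8, 64`, which is the order of a Sylow `2`-subgroup of `A_m` (`|A_m| = 60, 360,
20160`); it is a `2`-group (see Pool.Agent.Helper78.SA.M_E8 for `m = 8`). Let `n0` be the even permutation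
`[0, 2, 1, 4, 3]`, `[0, 1, 3, 4, 2, 5]`, `[6, 4, 3, 7, 2, 5, 1, 0]` (lists of the values at
`0, 1, …, m - 1`). The only even `y ∈ Q0 m` with `n0 y n0⁻¹ ∈ Q0 m` is `1` (checked by a program; for
`m = 8` the only other such `y ∈ Q0 8` is the transposition of `6` and `7`). Use explicit enumeration
(a search as in `rig`, or a list of the `4, 8, 64` elements). -/
def StREG : Prop :=
  ∀ m : ℕ, m = 5 ∨ m = 6 ∨ m = 8 → ∃ (V : Sylow 2 (alternatingGroup (Fin m)))
    (n0 : alternatingGroup (Fin m)), Rg (V : Subgroup (alternatingGroup (Fin m))) V n0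

/-- MODULE C53. The counts for `A_5`, `p = 3`. PROOF. Finite computation (checked by a program; the
exact maxima are `4` and `8`). Hints: the sets `c V' n0 V = (c V' c⁻¹) (c n0) V` are the sets
`V1 g V2` with `g ∈ A_5` and Sylow `2`-subgroups `V1, V2` (the `5` Klein groups, one for each fixed
point) such that `g⁻¹ V1 g ≠ V2`; `x` is bad for `P = ⟨(a b c)⟩` iff `x` maps the set `{a, b, c}` to
itself; so all sets have `16` elements and a kernel computation with permutations coded as lists or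
numbers needs at most `5 * 5 * 60 * 16 * 10` simple tests; conjugation allows to fix `P`. -/
def StC53 : Prop := Cnt (alternatingGroup (Fin 5)) 3 5 10

/-- MODULE C55. The counts for `A_5`, `p = 5`. PROOF. As C53 (exact maxima `4` and `10`); `x` is bad for
`P = ⟨s⟩`, `s` a `5`-cycle, iff `x s x⁻¹ ∈ ⟨s⟩`; there are `6` groups `P`, and the elements that are not bad
form two `P`-double cosets. -/
def StC55 : Prop := Cnt (alternatingGroup (Fin 5)) 5 5 10

/-- MODULE C63. The counts for `A_6`, `p = 3`. PROOF. Finite computation (checked by a program; the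
exact maxima are `16` and `28`, so there is a large margin). Reduction: let `P0, V0` be explicit Sylow
subgroups (`P0 = ⟨(0 1 2), (3 4 5)⟩`, `V0` the even elements of `Q0 6`). With `P = u⁻¹ P0 u`,
`V' = a⁻¹ V0 a`, `V = b⁻¹ V0 b` the sets are, up to conjugation by `u`, the sets `s V0 g V0 t` with
`s, g, t ∈ A_6`, `g` regular for `V0`. The two numbers depend only on the double cosets `P0 s V0` (`5` of
them), `V0 g V0` (`4` regular ones) and `V0 t P0` (`5`), so `100` sets of `64` elements have to be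
checked. `x` is bad for `P0` iff `x` normalizes `P0` iff `x` maps the partition `{012 | 345}` to itself;
the other elements form `4` double cosets of `P0` (so `x` may be taken from `4` representatives; for
a bad `x` the second set is the first one). -/
def StC63 : Prop := Cnt (alternatingGroup (Fin 6)) 3 28 53

/-- MODULE C65. The counts for `A_6`, `p = 5`. PROOF. `|P| = 5`, and `x` is bad for `P` iff it normalizes
`P`; the normalizer has order `10` (`A_6` has `144 / 4 = 36` Sylow `5`-subgroups), and `P x P` has at most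
`25` elements; `10 + 25 = 35`. -/
def StC65 : Prop := Cnt (alternatingGroup (Fin 6)) 5 10 35

/-- MODULE HN5 (theorem: StC53 → StC55 → StHN5). PROOF. The double coset `D = V' n0 V` has `16` elements
(`(a, b) ↦ a n0 b` is injective since `n0` is regular; `|V| = |V'| = 4`). If `p i ≥ 7` then `H i = 1`
(`|A_5| = 60`), nothing is bad for `H i` and a double coset of `H i` is one element. The number of
`n ∈ D` such that `c i * n` is bad for some `i` is at most `5 + 5`, so there is a good `n ∈ D`; the number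
of `n ∈ D` which are not good or have `c j n' ∈ H j (c j n) H j` is at most `10 + 5` if `p j = 3` or `5`
(second part of Cnt for `p j`, first part for the other prime) and at most `5 + 5 + 1` if `p j ≥ 7`;
so there is `n'`. -/
def StHN5 : Prop := HitIn (alternatingGroup (Fin 5))

/-- MODULE HN6 (theorem: StC63 → StC65 → StHN6). PROOF. As HN5 with `|D| = 64` and the numbers
`28 + 10 < 64`, `53 + 10 < 64` (`p j = 3`), `35 + 28 < 64` (`p j = 5`), `28 + 10 + 1 < 64` (`p j ≥ 7`). -/
def StHN6 : Prop := HitIn (alternatingGroup (Fin 6))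

/-- MODULE HN8 (theorem: StTR → StTOT → StBW → StGDT → StGDX → StNSM → StHN8). PROOF. As HN5 with
`|D| = 64 ^ 2 = 4096` (`|A_8| = 20160 = 64 * 315`). By StTR `2 * bad (H i) ≤ bad (H' i)` with the images
`H' i` in `Perm (Fin 8)`, and by StTOT (with `b2 = 0`, `b3 = W A3 3 8 / 2`, `b5 = W (RT 5) 5 8 / 4`,
`b7 = W (RT 7) 7 8 / 6` as in Pool.Agent.Helper12.SA.M_ALT, where the same is done for `m = 8`) the sum
of the `bad (H' i)` is at most `odds 8 < 4 ^ 6 = 4096` (StNSM). So less than `2048` elements `n ∈ D` have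
a bad `c i * n` for some `i`. A double coset of `H j` has at most `|H j| ^ 2 ≤ 81` elements
(`20160 = 2 ^ 6 * 3 ^ 2 * 5 * 7`), and `2048 + 81 < 4096`. -/
def StHN8 : Prop := HitIn (alternatingGroup (Fin 8))

/-- MODULE AUG. Automorphisms of `A_m` that preserve the `3`-cycles. PROOF. This is what
Pool.Agent.Helper90.SA.M_AUT proves for `m ≥ 7`: there StAU1 is used only to know that the images of
`3`-cycles are `3`-cycles, which is now a hypothesis, and `m ≥ 7` is used only for the existence of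
four points. Copy or import that file. -/
def StAUG : Prop :=
  ∀ (m : ℕ) (φ : MulAut (alternatingGroup (Fin m))), 5 ≤ m →
    (∀ a : alternatingGroup (Fin m), (a : Perm (Fin m)).IsThreeCycle →
      (φ a : Perm (Fin m)).IsThreeCycle) →
    ∃ τ : Perm (Fin m), ∀ a : alternatingGroup (Fin m), (φ a : Perm (Fin m)) = τ * a * τ⁻¹

/-- MODULE AUO (theorem: StAU1 → StAUG → StAUO). Automorphisms of `A_5, A_6, A_8` whose order is a power
of an odd prime are inner. PROOF. Let `φ` have odd order. (i) `φ` preserves the `3`-cycles: `m = 8`: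
StAU1. `m = 5`: the `3`-cycles are the elements of order `3`. `m = 6`: the elements of order `3` are the
`3`-cycles and the products of two disjoint `3`-cycles, and each of these two sets is a conjugacy
class of `A_6`; `φ` permutes these two sets, so `φ ^ 2` preserves both, and `φ` is a power of `φ ^ 2`.
(ii) By StAUG `φ` is conjugation by some `τ`; if `q` is the (odd) order of `φ` then `τ ^ q` centralizes
`A_m`, so `τ ^ q = 1` and `τ` is even. So `φ` is inner. Let `H` be the preimage of `T` under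
`MulAut.conj` (injective, trivial centre). -/
def StAUO : Prop :=
  ∀ m : ℕ, m = 5 ∨ m = 6 ∨ m = 8 → ∀ q : ℕ, q.Prime → q ≠ 2 →
    ∀ T : Subgroup (MulAut (alternatingGroup (Fin m))), IsPGroup q T →
      ∃ H : Subgroup (alternatingGroup (Fin m)), IsPGroup q H ∧
        ∀ t : MulAut (alternatingGroup (Fin m)), t ∈ T ↔ ∃ a ∈ H, t = MulAut.conj a

/-- MODULE HAL (theorem: StREG → StHN5 → StHN6 → StHN8 → StAUO → StHAL). PROOF. The first part of Hit is
StREG. Second part: let `H' i` be the subgroups of StAUO for `T i`, contained in Sylow subgroups `H i`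
of `S`; apply HitIn. If `t = conj y ∈ T i`, `y ∈ H' i`, and `conj (c i n) t (conj (c i n))⁻¹ =
conj (c i n y (c i n)⁻¹) ∈ T i`, then `c i n y (c i n)⁻¹ ∈ H' i` (trivial centre), so `y = 1` as `c i n` is not
bad for `H i`. If `conj (c j n') = t conj (c j n) t'` with `t = conj a`, `t' = conj b` then
`c j n' = a (c j n) b`, a contradiction. -/
def StHAL : Prop := ∀ m : ℕ, m = 5 ∨ m = 6 ∨ m = 8 → Hit (alternatingGroup (Fin m))

/-- MODULE MNH (theorem: StPER → StMN1 → StCHO → StMNH). The main lemma with Hit. PROOF. As MN (see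
Pool.Agent.Helper72.SA.M_MN). Let `ι'` be the set of `i` with `p i ≠ 2`. For every `ω` fix Sylow
`2`-subgroups `V ω`, `V' ω` and a regular `n0 ω`: if `p i0 = 2` for some `i0` let `V` be given by the
hypothesis, `n2` the given element, `V' ω = (c i0 ω)⁻¹ (V ω) (c i0 ω)`, `n0 ω = n2 ω`; it is regular: let
`y ∈ V ω` and `n2 y n2⁻¹ ∈ V' ω`, i.e. `(c n2) y (c n2)⁻¹ ∈ V ω`; then `conj (single ω y) ∈ R i0` and
its conjugate by `conj (c i0 * n2)` is `conj (single ω _) ∈ R i0`, so `conj (single ω y) = 1`, `y = 1`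
(trivial centre). If there is no such `i0` take `V' = V` and `n0` from the first part of Hit. Let `g ω` be
the set of the `n ∈ V' ω (n0 ω) V ω` such that for all `i ∈ ι'` and `t ∈ Res (R i) ω`:
`conj (c i ω * n) * t * (conj (c i ω * n))⁻¹ ∈ Res (R i) ω → t = 1`. If `ι'` is empty then `n0 ω ∈ g ω`;
otherwise by Hit (with `T i = Res (R i) ω`, `p i`-groups by StMN1) for every `i ∈ ι'` there are two
elements `n, n' ∈ g ω` such that `Rel (R i) ω ω (c i ω * n) (c i ω * n')` is false (if `Rel` holds with `y, r`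
then `y, r` induce `t, t' ∈ Res (R i) ω` with `t' = conj (c n') * t * (conj (c n))⁻¹`, so
`conj (c n') = t' * conj (c n) * t⁻¹`). Now StCHO for `ι'` (`kap (p i) + 1 = 2`), with
colours as in MN, gives `n` with `n ω ∈ g ω`, and as in MN the conclusion holds for all `i ∈ ι'`. Let
`p i0 = 2`: `n ω = a ω * n2 ω * b ω` with `a ω ∈ V' ω`, `b ω ∈ V ω`, so
`c i0 * n = a' * (c i0 * n2) * b` with `a' = c i0 * a * (c i0)⁻¹`, all components of `a'` and `b` in `V ω`,
so `conj a', conj b ∈ R i0`. If `y ∈ R i0` and `conj (c i0 * n) * y * (conj (c i0 * n))⁻¹ ∈ R i0` then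
`y' = conj b * y * (conj b)⁻¹ ∈ R i0` and its conjugate by `conj (c i0 * n2)` is in `R i0`, so `y' = 1`,
`y = 1`. -/
def StMNH : Prop :=
  ∀ (Ω : Type) [Finite Ω] (S : Ω → Type) [∀ ω, Group (S ω)] [∀ ω, Finite (S ω)],
    (∀ ω, IsSimpleGroup (S ω)) → (∀ ω, ∃ a b : S ω, a * b ≠ b * a) → (∀ ω, Hit (S ω)) →
    ∀ (ι : Type) [Finite ι] (p : ι → ℕ) (R : ι → Subgroup (MulAut (∀ ω, S ω)))
      (c : ι → ∀ ω, S ω), (∀ i, (p i).Prime) → Function.Injective p →
      (∀ i, IsPGroup (p i) (R i)) →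
      (∀ i j, i ≠ j → ∀ y ∈ R i, ∀ z ∈ R j, ∃ n : (∀ ω, S ω),
        y * z = MulAut.conj n * (z * y)) →
      (∀ i, p i = 2 →
        (∃ V : ∀ ω, Sylow 2 (S ω), ∀ a : ∀ ω, S ω, (∀ ω, a ω ∈ V ω) → MulAut.conj a ∈ R i) ∧
        ∃ n : ∀ ω, S ω, ∀ y ∈ R i,
          MulAut.conj (c i * n) * y * (MulAut.conj (c i * n))⁻¹ ∈ R i → y = 1) →
      ∃ n : ∀ ω, S ω, ∀ i, ∀ y ∈ R i,
        MulAut.conj (c i * n) * y * (MulAut.conj (c i * n))⁻¹ ∈ R i → y = 1

/-- MODULE LF3. As LF1, with more information. PROOF. Take the same `h, R, c` as in LF1 (see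
Pool.Agent.Helper62.SA.M_LF1; `L i` = preimage of `O_{p i}(G ⧸ N)`, `R i = P i ∩ L i`,
`(R i) ^ h = (R i) ^ (c i)`). `P i ∩ N ≤ P i ∩ L i = R i`. Last part: let `StarAt G (p i)`. By Sylow's theorem
there is `g` with `P i ∩ (P i) ^ g ≤ O_{p i}(G)` (if `P' ∩ P'' ≤ O`, `P' = (P i) ^ u`, conjugate by `u⁻¹`; `O`
is normal). `(R i) ^ g` is a Sylow `p i`-subgroup of `L i`, so as for `h` it is `(R i) ^ d` with `d ∈ N`. Let
`n2 = (c i)⁻¹ d`. Then `R i ∩ (R i) ^ (c i n2) ≤ O_{p i}(G)`. Let `y ∈ R i`, `z` centralize `N` and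
`(c i n2) y (c i n2)⁻¹ z = r ∈ R i`. As `(c i n2) y (c i n2)⁻¹ ∈ L i` also `z ∈ L i`, and `z` lies in the normal
subgroup `K` of the elements of `L i` that centralize `N`, which is a `p i`-group (last part of LF1), so
`z ∈ P i ∩ L i = R i`. So `(c i n2) y (c i n2)⁻¹ ∈ R i`, `y ∈ O_{p i}(G)`. Finally `O_{p i}(G) ∩ N` is a normal
`p i`-subgroup of `N`, which is trivial: this follows from the hypothesis `hN`; so `O_{p i}(G)` and `N`
commute (both are normal). -/
def StLF3 : Prop :=
  ∀ (G : Type) [Group G] [Finite G] (N : Subgroup G) [N.Normal],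
    (∀ m ∈ N, (∀ m' ∈ N, m * m' = m' * m) → m = 1) →
    (∀ (q : ℕ) (M : Subgroup G) [M.Normal], q.Prime → M ≤ N → IsPGroup q M → M = ⊥) →
    ∀ (ι : Type) [Finite ι] (p : ι → ℕ), (∀ i, (p i).Prime) → Function.Injective p →
      SyncFor (G ⧸ N) p → ∀ P : ∀ i, Sylow (p i) G,
      ∃ (h : G) (R : ι → Subgroup G) (c : ι → G), (∀ i, c i ∈ N) ∧ (∀ i, IsPGroup (p i) (R i)) ∧
        (∀ i j, i ≠ j → ∀ y ∈ R i, ∀ z ∈ R j, ∃ n ∈ N, y * z = n * (z * y)) ∧
        (∀ n ∈ N, ∀ i, ∀ y ∈ P i, (h * n) * y * (h * n)⁻¹ ∈ P i →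
          y ∈ R i ∧ (c i * n) * y * (c i * n)⁻¹ ∈ R i) ∧
        (∀ i, ∀ y ∈ R i, (∀ m ∈ N, y * m = m * y) → ∀ Q : Sylow (p i) G, y ∈ Q) ∧
        (∀ i, (P i : Subgroup G) ⊓ N ≤ R i) ∧
        (∀ i, StarAt G (p i) → ∃ n2 ∈ N, ∀ y ∈ R i, ∀ z : G, (∀ m ∈ N, z * m = m * z) →
          (c i * n2) * y * (c i * n2)⁻¹ * z ∈ R i → ∀ m ∈ N, y * m = m * y)

/-- MODULE LFH (theorem: StMNH → StLF3 → StLFH). Lifting with Hit. PROOF. As LFT (see
Pool.Agent.Helper57.SA.M_LFT), with StLF3 instead of StLF1 and StMNH instead of StMN. A product of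
nonabelian simple groups has no nontrivial abelian normal subgroup, in particular no nontrivial
normal `q`-subgroup (the centre of a nontrivial `q`-group is nontrivial and would be an abelian
normal subgroup of `N`; or: the projection of a normal `q`-subgroup to a factor is a normal
`q`-subgroup of a nonabelian simple group, which is trivial). For `p i = 2` (then `StarAt G 2`) the two
extra hypotheses of StMNH: `P i ∩ N` is a Sylow `2`-subgroup of `N` (`N` normal, e.g.
Sylow.subtype or a cardinality argument), its image under `e : N ≃* ∀ ω, S ω` is a Sylow `2`-subgroup of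
the product and contains all `mulSingle ω a`, `a ∈ V ω`, where `V ω` is the projection to `S ω`, a Sylow
`2`-subgroup of `S ω` (the product of the projections is a `2`-group that contains the Sylow subgroup,
so it is equal to it, and the orders show that the projections are Sylow subgroups); so it is the
product of the `V ω`, and conjugation by its elements lies in `ρ (P i ∩ N) ≤ ρ (R i)`. The element `n` is
`e n2`: if `ρ y` with `y ∈ R i` satisfies `conj (c n2) ρ y (conj (c n2))⁻¹ = ρ r`, `r ∈ R i`, then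
`r = (c n2) y (c n2)⁻¹ z` with `ρ z = 1`, i.e. `z` centralizes `N`; so `y` centralizes `N`, `ρ y = 1`. -/
def StLFH : Prop :=
  ∀ (G : Type) [Group G] [Finite G] (N : Subgroup G) [N.Normal] (Ω : Type) [Finite Ω]
    (S : Ω → Type) [∀ ω, Group (S ω)],
    (∀ ω, IsSimpleGroup (S ω)) → (∀ ω, ∃ a b : S ω, a * b ≠ b * a) → (∀ ω, Hit (S ω)) →
    Nonempty (N ≃* ∀ ω, S ω) →
    ∀ (ι : Type) [Finite ι] (p : ι → ℕ), (∀ i, (p i).Prime) → Function.Injective p →
      (∀ i, p i = 2 → StarAt G 2) → SyncFor (G ⧸ N) p → SyncFor G p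

/-- MODULE CH3 (theorem: StLFT → StLFH → StCH3). Series. PROOF. As CH (see Pool.Agent.Helper60.SA.M_CH)
with one more case, which is StLFH for `G ⧸ N j`. -/
def StCH3 : Prop :=
  ∀ (G : Type) [Group G] [Finite G] (k : ℕ) (N : ℕ → Subgroup G) [∀ j, (N j).Normal],
    N 0 = ⊥ → (∀ j < k, N j ≤ N (j + 1)) →
    ∀ (ι : Type) [Finite ι] (p : ι → ℕ), (∀ i, (p i).Prime) → Function.Injective p →
    (∀ j < k,
      (Group.IsNilpotent ((N (j + 1)).map (QuotientGroup.mk' (N j))) ∧
        ∀ i, StarAt (G ⧸ N j) (p i)) ∨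
      (∃ (Ω : Type) (_ : Finite Ω) (S : Ω → Type) (_ : ∀ ω, Group (S ω)),
        (∀ ω, IsSimpleGroup (S ω)) ∧ (∀ ω, ∃ a b : S ω, a * b ≠ b * a) ∧
        ((∀ ω, Ample (S ω)) ∨ ((∀ ω, Hit (S ω)) ∧ ∀ i, p i = 2 → StarAt (G ⧸ N j) 2)) ∧
        Nonempty (((N (j + 1)).map (QuotientGroup.mk' (N j))) ≃* ∀ ω, S ω))) →
    SyncFor (G ⧸ N k) p → SyncFor G p

/-- MODULE FI3 (theorem: StCH3 → StAMP → StHAL → StSYM → StALT → StSML → StPRD → StISO → StFI3). First final
theorem. PROOF. As in Pool.Agent.Helper42.SA.M_FI2, with StCH3 instead of StCH, and StHAL for degrees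
`5, 6, 8`. -/
def StFI3 : Prop :=
  ∀ (G : Type) [Group G] [Finite G] (k : ℕ) (N : ℕ → Subgroup G) [∀ j, (N j).Normal],
    N 0 = ⊥ → (∀ j < k, N j ≤ N (j + 1)) →
    ∀ (ι : Type) [Finite ι] (p : ι → ℕ), (∀ i, (p i).Prime) → Function.Injective p →
    (∀ j < k,
      (Group.IsNilpotent ((N (j + 1)).map (QuotientGroup.mk' (N j))) ∧
        ∀ i, StarAt (G ⧸ N j) (p i)) ∨
      (∃ (Ω : Type) (_ : Finite Ω) (m : Ω → ℕ),
        ((∀ ω, m ω = 7 ∨ 9 ≤ m ω) ∨
          ((∀ ω, m ω = 5 ∨ m ω = 6 ∨ m ω = 8) ∧ ∀ i, p i = 2 → StarAt (G ⧸ N j) 2)) ∧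
        Nonempty (((N (j + 1)).map (QuotientGroup.mk' (N j))) ≃*
          ∀ ω, alternatingGroup (Fin (m ω))))) →
    ∀ (κ : Type) [Finite κ] (H : κ → Type) [∀ c, Group (H c)],
    (∀ c, ∃ m : ℕ, Nonempty (H c ≃* Perm (Fin m)) ∨ Nonempty (H c ≃* alternatingGroup (Fin m))) →
    Nonempty ((G ⧸ N k) ≃* ∀ c, H c) → (∀ i, StarAt (G ⧸ N k) (p i)) → SyncFor G p

/-- MODULE FI4 (theorem: StCH3 → StAMP → StHAL → StISO → StFI4). Second final theorem. PROOF. Strong
induction on `|G|`. If `⊥ = ⊤` everything is trivial. Otherwise let `M'` be given for `M = ⊥`. The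
group `G ⧸ M'` is smaller and satisfies the hypotheses: a normal subgroup of it is the image of
its preimage `M1 ≥ M'`, and `(G ⧸ M') ⧸ (image of M1) ≃* G ⧸ M1` (third isomorphism theorem;
`StarAt` and the structure of `M1' / M1` are transported; StarAt is invariant under isomorphisms).
So `SyncFor (G ⧸ M') p`. Now StCH3 with `k = 1`, `N 0 = ⊥`, `N j = M'` for `j ≥ 1`: if `M'` (that is
its image in `G ⧸ ⊥`) is nilpotent use the first case (StarAt for `M = ⊥`), otherwise the second
with StAMP (`m = 7` or `m ≥ 9`) or StHAL (`m = 5, 6, 8`; StarAt at `2` holds if `p i = 2`). The alternating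
groups of degree at least `5` are simple (Mathlib) and not commutative. -/
def StFI4 : Prop :=
  ∀ (G : Type) [Group G] [Finite G] (ι : Type) [Finite ι] (p : ι → ℕ), (∀ i, (p i).Prime) →
    Function.Injective p →
    (∀ (M : Subgroup G) [M.Normal] (i : ι), StarAt (G ⧸ M) (p i)) →
    (∀ (M : Subgroup G) [M.Normal], M ≠ ⊤ → ∃ M' : Subgroup G, M'.Normal ∧ M < M' ∧
      (Group.IsNilpotent (M'.map (QuotientGroup.mk' M)) ∨
        ∃ (Ω : Type) (_ : Finite Ω) (m : ℕ), 5 ≤ m ∧
          Nonempty ((M'.map (QuotientGroup.mk' M)) ≃* (Ω → alternatingGroup (Fin m))))) →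
    SyncFor G p

end Pool.Agent.Helper17.SA
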