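import Pool.Agent.Helper17.SA.Main2
import Pool.Agent.Helper17.SA.St6
import Pool.Agent.Helper62.SA.M_REG
import Pool.Agent.Helper92.SA.M_C53
import Pool.Agent.Helper57.SA.M_C55
import Pool.Agent.Helper47.SA.M_C63
import Pool.Agent.Helper33.SA.M_C65
import Pool.Agent.Helper29.SA.M_HN5
import Pool.Agent.Helper8.SA.M_HN6
import Pool.Agent.Helper91.SA.M_HN8
import Pool.Agent.Helper48.SA.M_AUG
import Pool.Agent.Helper24.SA.M_AUO
import Pool.Agent.Helper33.SA.M_HAL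
import Pool.Agent.Helper93.SA.M_MNH
import Pool.Agent.Helper62.SA.M_LF3
import Pool.Agent.Helper30.SA.M_LFH
import Pool.Agent.Helper27.SA.M_CH3
import Pool.Agent.Helper12.SA.M_LS1
import Pool.Agent.Helper85.SA.M_LS2
import Pool.Agent.Helper65.SA.M_CH5
import Pool.Agent.Helper13.SA.M_FI5
import Pool.Agent.Helper28.SA.M_FI6

/-!
# Synchronized Sylow intersections in groups with alternating composition factors: assembly
-/

set_option autoImplicit false

namespace Pool.Agent.Helper17.SA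

theorem kREG : StREG := Pool.Agent.Helper62.SA.REG.pREG
theorem kC53 : StC53 := Pool.Agent.Helper92.SA.C53.pC53
theorem kC55 : StC55 := Pool.Agent.Helper57.SA.pC55
theorem kC63 : StC63 := Pool.Agent.Helper47.SA.pC63
theorem kC65 : StC65 := Pool.Agent.Helper33.SA.pC65
theorem kHN5 : StHN5 := Pool.Agent.Helper29.SA.pHN5 kC53 kC55
theorem kHN6 : StHN6 := Pool.Agent.Helper8.SA.pHN6 kC63 kC65
theorem kHN8 : StHN8 := Pool.Agent.Helper91.SA.pHN8 kTR kTOT kBW kGDT kGDX kNSM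
theorem kAUG : StAUG := Pool.Agent.Helper48.SA.pAUG
theorem kAUO : StAUO := Pool.Agent.Helper24.SA.pAUO kAU1 kAUG
theorem kHAL : StHAL := Pool.Agent.Helper33.SA.pHAL kREG kHN5 kHN6 kHN8 kAUO
theorem kMNH : StMNH := Pool.Agent.Helper93.SA.pMNH kPER kMN1 kCHO
theorem kLF3 : StLF3 := Pool.Agent.Helper62.SA.LF3.pLF3
theorem kLFH : StLFH := Pool.Agent.Helper30.SA.pLFH kMNH kLF3
theorem kCH3 : StCH3 := Pool.Agent.Helper27.SA.pCH3 kLFT kLFH
theorem kLS1 : StLS1 := Pool.Agent.Helper12.SA.pLS1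
theorem kLS2 : StLS2 := Pool.Agent.Helper85.SA.pLS2 kLS1 kISO
theorem kCH5 : StCH5 := Pool.Agent.Helper65.SA.pCH5 kCH3 kLS2
theorem kFI5 : StFI5 := Pool.Agent.Helper13.SA.FI5.pFI5 kCH5 kAMP kHAL kSYM kALT kSML kPRD kISO
theorem kFI6 : StFI6 := Pool.Agent.Helper28.SA.FI6.pFI6 kCH5 kAMP kHAL kISO

end Pool.Agent.Helper17.SA
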