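import Pool.Agent.Helper17.SA.Defs

/-!
# Statements of the modules of project SA, part 1: counting in symmetric groups

Every `St..` is a proposition with a complete proof in its docstring.
-/

set_option autoImplicit false

open scoped Pointwise

namespace Pool.Agent.Helper17.SA

open Equiv

/-- MODULE UB. First moment bound. PROOF. Count the pairs `(x, y)` with `y ∈ H`, `y ≠ 1`,
`y ^ p = 1`, `x y x⁻¹ ∈ H`. (a) For a bad `x` the set `D = {y ∈ H | x y x⁻¹ ∈ H}` is a nontrivial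
`p`-group, so it contains an element `y` of order `p` (exists_prime_orderOf_dvd_card or: a suitable
power of the given element), and `y, …, y ^ (p-1)` are `p - 1` different elements of `D` as counted.
So the number of pairs is at least `(p - 1) * bad H`. (b) A `y ≠ 1` with `y ^ p = 1` has
`cycleType = replicate k p` with `1 ≤ k` (Perm.cycleType_prime_order) and `p k ≤ m`. For fixed `y` the
number of `x` with `x y x⁻¹ ∈ H` is the sum over `z ∈ H` of the number of `x` with `x y x⁻¹ = z`;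
this is `0` unless `z` has the same cycle type (Perm.isConj_iff_cycleType_eq), and then it is the
order of the centralizer of `y`, `(m - p k)! p ^ k k!` (Perm.nat_card_centralizer or similar in
Mathlib.GroupTheory.Perm.Centralizer). So the number of pairs is
`∑ k, cc H p k * cc H p k * ((m - p k)! p ^ k k!)`. -/
def StUB : Prop :=
  ∀ (m p : ℕ) (H : Subgroup (Perm (Fin m))), p.Prime → IsPGroup p H →
    (p - 1) * bad H ≤ ∑ k ∈ Finset.Icc 1 (m / p),
      (cc H p k) ^ 2 * (m - p * k).factorial * p ^ k * k.factorial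

/-- MODULE UB2. Second moment correction for `p = 2`. PROOF. As in UB let `N x` be the number of
`y ∈ H`, `y ≠ 1`, `y ^ 2 = 1`, `x y x⁻¹ ∈ H`, and `E x` the number of those that are
transpositions (`cycleType = replicate 1 2`). The sum of all `N x` is the right side (proof (b) of
UB). CLAIM: `N x ≥ E x * (E x - 1) + (1 if x is bad else 0)`. The transpositions counted by `E x`
are pairwise disjoint: two different ones with a common point have a product of order `3`, but `H`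
is a `2`-group. So the products over the subsets of this set of `E` transpositions are `2 ^ E`
different elements `y` of the abelian group they generate, all with `y ^ 2 = 1`, `y ∈ H`,
`x y x⁻¹ ∈ H`, one of them is `1`: `N ≥ 2 ^ E - 1 ≥ E (E - 1) + 1` if `E ≥ 1` (`2 ^ E ≥ E ^ 2 - E + 2`,
induction); for `E = 0` use that a bad `x` has `N x ≥ 1` (an element of order `2`). Finally
`∑ x, E x (E x - 1)` counts the triples `(x, y1, y2)` with different transpositions `y1, y2 ∈ H`,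
`x y1 x⁻¹ ∈ H`, `x y2 x⁻¹ ∈ H`; `y1, y2` are disjoint; for every ordered pair `(z1, z2)` of different
(so disjoint) transpositions of `H` there are at least (in fact exactly) `4 (m - 4)!` elements `x`
with `x y1 x⁻¹ = z1`, `x y2 x⁻¹ = z2`: there is one such `x0` (any permutation that maps the two
pairs of points accordingly), and `x0 c` is one for each `c = c' * s * t`, `s ∈ {1, y1}`,
`t ∈ {1, y2}`, `c'` a permutation of the other `m - 4` points. So the sum is at least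
`(t (t - 1)) ^ 2 * 4 * (m - 4)!`, `t = cc H 2 1`. -/
def StUB2 : Prop :=
  ∀ (m : ℕ) (H : Subgroup (Perm (Fin m))), 4 ≤ m → IsPGroup 2 H →
    bad H + (cc H 2 1 * (cc H 2 1 - 1)) ^ 2 * 4 * (m - 4).factorial ≤
      ∑ k ∈ Finset.Icc 1 (m / 2), (cc H 2 k) ^ 2 * (m - 2 * k).factorial * 2 ^ k * k.factorial

/-- MODULE TRN. A Sylow `2`-subgroup contains `m / 2` transpositions. PROOF. The transpositions
`swap (2i) (2i+1)`, `i < m / 2`, commute, so the subgroup they generate is an (elementary) abelian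
`2`-group; it lies in a Sylow `2`-subgroup `P0` (IsPGroup.exists_le_sylow), and `P` is conjugate to
`P0`; conjugation preserves the cycle type, so `cc P 2 1 = cc P0 2 1 ≥ m / 2`. -/
def StTRN : Prop :=
  ∀ (m : ℕ) (P : Sylow 2 (Perm (Fin m))), m / 2 ≤ cc (P : Subgroup (Perm (Fin m))) 2 1

/-- MODULE INT. Restriction to an invariant set and its complement. PROOF. For `y ∈ H` also `y⁻¹ ∈ H`
preserves `S`, so `S a ↔ S (y a)`. Let `H1`, `H2` be the images of `H` under the homomorphisms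
`y ↦ y.subtypePerm` to the permutations of `{a // S a}` and `{a // ¬ S a}` (define them on the
subgroup `H`); images of `p`-groups are `p`-groups. `y ↦ (y1, y2)` is injective on `H`,
`y = ofSubtype y1 * ofSubtype y2` is a product of disjoint permutations, so
`y.cycleType = y1.cycleType + y2.cycleType` (Perm.Disjoint.cycleType_mul, Perm.cycleType_ofSubtype);
if the sum is `replicate k p`, then the summands are `replicate i p` and `replicate (k - i) p` for
some `i ≤ k`. So the elements counted by `cc H p k` inject into the disjoint union over `i ≤ k` of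
the products of the sets counted by `cc H1 p i` and `cc H2 p (k - i)`. -/
def StINT : Prop :=
  ∀ (p : ℕ) (α : Type) [Fintype α] [DecidableEq α] (H : Subgroup (Perm α)) (S : α → Prop)
    [DecidablePred S], p.Prime → IsPGroup p H → (∀ y ∈ H, ∀ a, S a → S (y a)) →
    ∃ (H1 : Subgroup (Perm {a // S a})) (H2 : Subgroup (Perm {a // ¬ S a})),
      IsPGroup p H1 ∧ IsPGroup p H2 ∧
      ∀ k, cc H p k ≤ ∑ i ∈ Finset.range (k + 1), cc H1 p i * cc H2 p (k - i)

/-- MODULE TRA. Blocks of a transitive `p`-group. PROOF. Fix a point `a0`, let `H0` be its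
stabilizer in `H`; `card α = |H : H0|` is a power of `p`, `p ^ j`, `j ≥ 1`. Let `|H| = p ^ n`,
`|H0| = p ^ (n - j)`. There is a subgroup `K` with `H0 ≤ K ≤ H` and `|K| = p ^ (n - 1)`
(Sylow.exists_subgroup_card_pow_prime_le in the group `H`), so `K` has index `p` in `H`, and it is
normal in `H` (Subgroup.normal_of_index_eq_minFac_card, or: the normalizer of a proper subgroup of
a `p`-group is bigger). Let `S` be the `K`-orbit of `a0`; its card is `|K| / |H0| = p ^ (j - 1)`.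
No fixed points: if `y ∈ H` fixes `a = g a0`, `g ∈ H`, then `g⁻¹ y g ∈ H0 ≤ K`, so `y ∈ K`.
Blocks: if `y ∈ H`, `y ∉ K`, `1 ≤ i < p`, then `y ^ i ∉ K` (its image in the group `H / K` of order
`p` has order `p`); if `a = k a0` and `y ^ i a = k' a0` with `k, k' ∈ K` then
`k'⁻¹ y ^ i k ∈ H0 ≤ K`, so `y ^ i ∈ K`, a contradiction. -/
def StTRA : Prop :=
  ∀ (p : ℕ) (α : Type) [Fintype α] [DecidableEq α] (H : Subgroup (Perm α)),
    p.Prime → IsPGroup p H → 2 ≤ Fintype.card α → (∀ a b : α, ∃ y ∈ H, y a = b) →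
    ∃ (j : ℕ) (K : Subgroup (Perm α)) (S : α → Prop), 1 ≤ j ∧ Fintype.card α = p ^ j ∧ K ≤ H ∧
      (∀ y ∈ K, ∀ a, S a → S (y a)) ∧ Nat.card {a // S a} = p ^ (j - 1) ∧
      (∀ y ∈ H, y ∉ K → ∀ a, y a ≠ a) ∧
      (∀ y ∈ H, y ∉ K → ∀ i, 1 ≤ i → i < p → ∀ a, S a → ¬ S ((y ^ i) a)) ∧ K.relIndex H = p

/-- MODULE LEG. Order of `p`-groups of permutations of `p ^ j - p ^ (j - 1)` points. PROOF. `Nat.card L`
is a power `p ^ a` (IsPGroup.iff_card) and divides `(card β)!` (Subgroup.card_subgroup_dvd_card,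
Fintype.card_perm), so `a ≤ padicValNat p (N!)`, `N = (p - 1) p ^ (j - 1)`. Legendre's formula
(sub_one_mul_padicValNat_factorial): `(p - 1) * padicValNat p N! = N - (p.digits N).sum`, and the
digits of `N` are `j - 1` zeros and one digit `p - 1` (Nat.digits_base_pow_mul or induction). Hence
the valuation is `p ^ (j - 1) - 1`. -/
def StLEG : Prop :=
  ∀ (p j : ℕ) (β : Type) [Fintype β] (L : Subgroup (Perm β)), p.Prime → 1 ≤ j →
    Fintype.card β = p ^ j - p ^ (j - 1) → IsPGroup p L → Nat.card L ≤ p ^ (p ^ (j - 1) - 1)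

/-- MODULE OUT (theorem: StLEG → StOUT). Number of elements of order `p` outside `K`. PROOF. `H \ K`
is the union of `p - 1` cosets `y0 K` (K.relIndex H = p). It is enough to show that each of them
contains at most `p ^ (p ^ (j - 1) - 1)` elements with `y ^ p = 1`. Elements of `K` preserve `S` and so
(finite) its complement; let `L` be the image of `K` in the permutations of `{a // ¬ S a}`, a
`p`-group, `card {a // ¬ S a} = p ^ j - p ^ (j - 1)`, so `|L| ≤ p ^ (p ^ (j - 1) - 1)` by StLEG. Map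
`y = y0 k` to the restriction of `k` to `¬ S`. This is injective on the `y` with `y ^ p = 1`: let
`y = y0 k`, `y' = y0 k'` with `k = k'` on `¬ S`, so `y c = y' c` for `¬ S c`. For `S b` put
`d = y' b`. For `1 ≤ i < p` we have `¬ S (y' ^ i b)`, hence `y' (y' ^ i b) = y (y' ^ i b)`, and
by induction `b = y' ^ p b = y ^ (p - 1) d`. Apply `y`: `y b = y ^ p d = d = y' b`. So `y = y'`. -/
def StOUT : Prop :=
  ∀ (p : ℕ) (α : Type) [Fintype α] [DecidableEq α] (H K : Subgroup (Perm α)) (j : ℕ)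
    (S : α → Prop), p.Prime → IsPGroup p H → 1 ≤ j → Fintype.card α = p ^ j → K ≤ H →
    (∀ y ∈ K, ∀ a, S a → S (y a)) → Nat.card {a // S a} = p ^ (j - 1) →
    (∀ y ∈ H, y ∉ K → ∀ i, 1 ≤ i → i < p → ∀ a, S a → ¬ S ((y ^ i) a)) → K.relIndex H = p →
    Nat.card {y : Perm α // y ∈ H ∧ y ∉ K ∧ y ^ p = 1} ≤ (p - 1) * p ^ (p ^ (j - 1) - 1)

/-- MODULE CNT (theorem: StINT → StTRA → StOUT → StCNT). The bound for the number of elements of a
given cycle type. PROOF. Strong induction on `card α`; let `n = card α / p`. An element counted by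
`cc H p k` has support of `p k ≤ card α` points, so `cc H p k = 0` for `k > n`; `cc H p 0 = 1`.
CASE 1: there are `a, b` with no `y ∈ H`, `y a = b`. Let `S` be the `H`-orbit of `a`; both `S` and
`¬ S` are nonempty, so they are smaller than `α`. Let `H1, H2` be as in StINT, `n1 = card S / p`,
`n2 = card (¬ S) / p`, `n1 + n2 ≤ n ≤ N`. By induction `cc H1 p i ≤ R n1 i` for `i ≤ n1` and it is `0`
for `i > n1`, same for `H2`; so `cc H p k ≤` the sum in the second condition of Good `≤ R n k`.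
CASE 2: `H` is transitive. If `card α ≤ 1` then `n = 0` (`p ≥ 2`), `k = 0`, first condition. Otherwise
take `j, K, S` of StTRA; `card α = p ^ j`, `n = p ^ (j - 1)`. Apply StINT to `K` and `S` and
the induction hypothesis to the two smaller sets (`S` is nonempty and proper), `n1 = p ^ (j - 1) / p`,
`n2 = (p ^ j - p ^ (j - 1)) / p`: `cc K p k ≤ ∑ (i ≤ n1, k - i ≤ n2) R n1 i R n2 (k - i)`. An element
`y ∈ H`, `y ∉ K` has no fixed points, so if its type is `replicate k p` then `p k = p ^ j`, `k = n`.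
So for `k ≠ n`: `cc H p k = cc K p k ≤ R n k` by the second condition (`n1 + n2 ≤ n`). For `k = n`:
`cc H p n ≤ cc K p n + (p - 1) * p ^ (n - 1)` by StOUT. If `j = 1`: `n = 1`, `n1 = n2 = 0`, the sum is
`0`, third condition. If `j ≥ 2`: `n1 = p ^ (j - 2)`, `n2 = n - n1`, the only term of the sum is
`i = n1`, `k - i = n2`, fourth condition with `i = j - 1`. -/
def StCNT : Prop :=
  ∀ (p N : ℕ) (R : ℕ → ℕ → ℕ), p.Prime → Good p N R →
    ∀ (α : Type) [Fintype α] [DecidableEq α] (H : Subgroup (Perm α)), IsPGroup p H →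
      Fintype.card α / p ≤ N → ∀ k, k ≤ Fintype.card α / p → cc H p k ≤ R (Fintype.card α / p) k

/-- MODULE T1. Trinomial coefficients: Vandermonde, monotonicity, value at `0`, vanishing above
`2 n`. PROOF. Inductions on `n1` (resp. `n`) with the recursion. (One can use that `T n k` is the
coefficient of `X ^ k` of `(1 + X + X ^ 2) ^ n` in `ℕ[X]`, Polynomial.coeff_mul with
Finset.Nat.sum_antidiagonal_eq_sum_range_succ.) -/
def StT1 : Prop :=
  (∀ n1 n2 k : ℕ, ∑ i ∈ Finset.range (k + 1), T n1 i * T n2 (k - i) = T (n1 + n2) k) ∧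
    (∀ n n' k : ℕ, n ≤ n' → T n k ≤ T n' k) ∧ (∀ n, T n 0 = 1) ∧ (∀ n k, 2 * n < k → T n k = 0)

/-- MODULE T2 (theorem: StT1 → StT2). Symmetry and a lower bound. PROOF. Symmetry
`T n k = T n (2 n - k)` for `k ≤ 2 n`: induction on `n`. Unimodality `T n k ≤ T n (k + 1)` for `k < n`:
induction on `n`; `T (n+1) (k+1) - T (n+1) k = T n (k+1) - T n (k-2)` (with `T n (negative) = 0`), for
`k + 1 ≤ n` use monotonicity up to `n`, for `k = n` use `T n (n+1) = T n (n-1)` (symmetry). Then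
`T (n+2) (n+1) = T (n+1) (n+1) + T (n+1) n + T (n+1) (n-1) ≥ 2 T (n+1) n`, and induction. -/
def StT2 : Prop :=
  (∀ r : ℕ, T (r + 1) (r + 2) = T (r + 1) r) ∧ (∀ r : ℕ, 2 ^ r ≤ T (r + 1) r)

/-- MODULE GDT (theorem: StT1 → StT2 → StGDT). PROOF. First and third conditions: `T n 0 = 1`,
`T 1 1 = 1`. Second: the truncated sum is at most `(p-1)^k` times the full Vandermonde sum
`T (n1 + n2) k ≤ T n k`. Fourth, with `q = p ^ (i-1) ≥ 1`, `n = p ^ i`, `n - q ≥ 1`: three terms of the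
Vandermonde sum (`T q (q-1)`, `T q q`, `T q (q+1)`) give `T n n ≥ T q q * T (n-q) (n-q) +
2 * T q (q-1) * T (n-q) (n-q-1) ≥ T q q * T (n-q) (n-q) + 2 ^ (n - 1)` by StT2 (`2 * 2^(q-1) * 2^(n-q-1)
= 2^(n-1)`). Multiply by `(p-1) ^ n`: `(p-1)^n * 2^(n-1) = (p-1) * (2 (p-1))^(n-1) ≥
(p-1) * p^(n-1)`, since `p ≤ 2 (p - 1)`. -/
def StGDT : Prop := ∀ p N : ℕ, p.Prime → Good p N (RT p)

/-- MODULE GDX. The exact tables satisfy the conditions (finite computation; checked by a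
program). For `n1 + n2 ≤ n ≤ 10` and `k > 10` all terms vanish. -/
def StGDX : Prop := Good 2 10 A2 ∧ Good 3 7 A3

/-- MODULE TB. Upper bounds for trinomial coefficients. PROOF. Inductions on `n`.
(1) `T (n+1) k ≤ C(n+k-1, k) + C(n+k-2, k-1) + C(n+k-3, k-2) ≤ C(n+k, k)` (the last is the sum of all
`C(n-1+i, i)`, `i ≤ k`, Nat.choose_succ_succ; `T 1 k ≤ 1`). (2) the sum of three terms `≤ 3 ^ n`.
(3) for `k = 0, 1` direct. For `2 ≤ k ≤ n`: `2 T (n+1) k ≤ 3 ((n)_k + (n)_(k-1) + (n)_(k-2))` and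
`(n+1)_k = (n)_k + k (n)_(k-1)` and `(n)_(k-2) ≤ (n)_(k-1) ≤ (k-1) (n)_(k-1)`. For `k = n + 1 ≥ 3`:
`T (n+1) (n+1) = T n n + 2 T n (n-1)` (symmetry, or use `T n (n+1) = T n (n-1)`, from `StT2`-like
induction) `≤ (3/2) (n! + 2 n!) ≤ (3/2) (n+1)!`; `k = n + 1 = 1, 2`: `T 1 1 = 1`, `T 2 2 = 3`. Here
`(n)_k = n.descFactorial k`. You may take `StT2` as a hypothesis (theorem: StT2 → StTB). -/
def StTB : Prop :=
  (∀ n k : ℕ, 1 ≤ n → T n k ≤ (n + k - 1).choose k) ∧ (∀ n k : ℕ, T n k ≤ 3 ^ n) ∧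
    (∀ n k : ℕ, k ≤ n → 2 * T n k ≤ 3 * n.descFactorial k)

/-- MODULE AN2 (theorem: StTB → StAN2). `p = 2`, `m ≥ 150`. PROOF. Let `n = m / 2 ≥ 75` and
`u k = T n k ^ 2 * 2 ^ k * k! * (m - 2k)! / m!` (real numbers). As `m ≥ 2 n`,
`(m - 2k)! / m! = 1 / (m)_(2k) ≤ 1 / (2n)_(2k)`. Let `v k = C(n+k-1,k)^2 * 2^k * k! / (2n)_(2k) ≥ u k`.
`v (k+1) / v k = (n+k)^2 / ((k+1) (n-k) (2n-2k-1))`. For `2 ≤ k`, `3 k ≤ 2 n` this is at most
`1/3`: put `j = n - k`, `k ≤ 2 j`, `j ≥ 25`; `3 (2k+j)^2 = 12k^2 + 12kj + 3j^2 ≤ 36 k j + 3 j^2` and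
`(k+1) j (2j-1) = 2kj^2 - kj + 2j^2 - j`, so it is enough that `2 k j^2 ≥ 37 k j + j^2 + j`, which
follows from `(2k - 1) j ≥ 37 k + 1` (true for `k ≥ 2`, `j ≥ 25`). So
`v k ≤ v 2 / 3^(k-2)` for all `k ≥ 2` with `3 (k-1) ≤ 2 n`, and the sum of these `v k` is at most
`(3/2) v 2`. `v 1 = n / (2n-1) ≤ 75/149`, `v 2 = n (n+1)^2 / (2 (2n-1) (n-1) (2n-3)) ≤ 0.134`. Tail: for
`k ≤ n` with `3 (k-1) > 2 n` we have `k ≥ 52`, `T n k ≤ 3^n`, `9^n ≤ 27^k`, `(2n)_(2k) ≥ (2k)!`, so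
`u k ≤ w k := 27^k * 2^k * k! / (2k)!`; `w (k+1) / w k = 27 / (2k+1) ≤ 1/2` for `k ≥ 50` and
`w 50 < 10^(-6)`, so the tail is at most `10^(-5)`. Total at most `0.504 + 0.201 + 0.00001 < 3/4`. -/
def StAN2 : Prop := ∀ m : ℕ, 150 ≤ m → 4 * W (RT 2) 2 m ≤ 3 * m.factorial

/-- MODULE AN3 (theorem: StTB → StAN3). `p = 3`, `m ≥ 150`. PROOF. `n = m / 3 ≥ 50`,
`RT 3 n k = 2^k T n k`, `u k = 4^k * T n k ^ 2 * 3^k * k! * (m - 3k)! / m!`, `(m-3k)!/m! ≤ 1/(3n)_(3k)`,
`v k = 4^k * C(n+k-1,k)^2 * 3^k * k! / (3n)_(3k) ≥ u k`. Ratio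
`v (k+1) / v k = 4 (n+k)^2 / ((k+1) j (3j-1) (3j-2))`, `j = n - k`. For `1 ≤ k`, `3 k ≤ 2 n`: `k ≤ 2 j`,
`n + k = 2k + j ≤ 5 j`, `j ≥ 17`, so the ratio is at most `100 j / (2 (3j-1) (3j-2)) ≤ 1/2`. So the sum
over `3 (k-1) ≤ 2 n` is at most `2 v 1 = 8 n / ((3n-1) (3n-2)) ≤ 0.02`. Tail `3 (k-1) > 2 n`: `k ≥ 35`,
`T n k ≤ 3^n`, `9^n ≤ 27^k`, `(3n)_(3k) ≥ (3k)!`: `u k ≤ w k := 324^k * k! / (3k)!`,
`w (k+1) / w k = 108 / ((3k+1)(3k+2)) ≤ 1/2`, `w 34 < 10^(-6)`. Total at most `0.03`. -/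
def StAN3 : Prop := ∀ m : ℕ, 150 ≤ m → 10 * W (RT 3) 3 m ≤ m.factorial

/-- MODULE ANP (theorem: StTB → StANP). All `p ≥ 5`. PROOF. Let `n = m / p`, `1 ≤ k ≤ n`. Since
`m ≥ p n`, `m! / (m - p k)! ≥ (p n)_(p k) = ∏ i < k, (p (n - i))_p ≥ ∏ i < k, p! (n-i)^p =
(p!)^k * ((n)_k)^p`; here `(p a)_p = ∏ l < p, (p a - l) ≥ ∏ l < p, a (p - l) = a^p p!` for `a ≥ 1`, as
`p a - l ≥ a (p - l)`. With `2 T n k ≤ 3 (n)_k` and `k! ≤ (n)_k`:
`((p-1)^k T n k)^2 (m - p k)! p^k k! / m! ≤ [(p-1)^2 p / p!]^k (9/4) (n)_k^2 (n)_k / (n)_k^p =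
(9/4) [(p-1)/(p-2)!]^k / (n)_k^(p-3) ≤ (9/4) [(p-1)/(p-2)!]^k / (n)_k^2`. -/
def StANP : Prop :=
  ∀ m p : ℕ, 5 ≤ p → (W (RT p) p m : ℝ) ≤ (m.factorial : ℝ) *
    ∑ k ∈ Finset.Icc 1 (m / p), (9 / 4) * (((p : ℝ) - 1) / ((p - 2).factorial : ℝ)) ^ k /
      (((m / p).descFactorial k : ℕ) : ℝ) ^ 2

/-- MODULE A57 (theorem: StANP → StA57). PROOF. `p = 5`, `n ≥ 30`: `(n)_k ≥ n` for `1 ≤ k ≤ n`, the
sum is at most `(9/4) ∑ (2/3)^k / n^2 ≤ (9/4) * 2 / 900 = 1/200`. `p = 7`: `(n)_k ≥ 1`, the sum is at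
most `(9/4) ∑ (1/20)^k ≤ (9/4)/19 < 1/8`. `p ≥ 11`: `a = (p-1)/(p-2)! ≤ 1/1000`, the sum is at most
`(9/4) a / (1 - a) ≤ 3 a`. -/
def StA57 : Prop :=
  (∀ m : ℕ, 150 ≤ m → 100 * W (RT 5) 5 m ≤ m.factorial) ∧
    (∀ m : ℕ, 8 * W (RT 7) 7 m ≤ m.factorial) ∧
    (∀ m p : ℕ, 11 ≤ p → (p - 2).factorial * W (RT p) p m ≤ 3 * (p - 1) * m.factorial)

/-- MODULE NUM. Numerical check for `22 ≤ m < 150` (checked by a program; the sum is at most
`0.917 m!`, for `m = 22`, and `0.86 m!` for `m ≥ 24`). In the kernel: compute the rows of `T` up to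
`74` by the recursion as lists, the sum `W` for one pair `(m, p)` by Horner's rule from `k = n`
down to `1` (`F k = (m - p k)!` grows by `p` factors, the coefficient of the next sum is
`(p-1)^2 p (k+1)`), `decide +kernel` on the Bool version, and a proof that the Bool version
computes `W`. Split into several lemmas if one evaluation takes longer than 60 seconds. -/
def StNUM : Prop :=
  ∀ m : ℕ, 22 ≤ m → m < 150 →
    W (RT 2) 2 m + W (RT 3) 3 m / 2 + W (RT 5) 5 m / 4 + W (RT 7) 7 m / 6 + m.factorial / 10000 <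
      m.factorial

/-- MODULE S6. `3`-subgroups of `Perm (Fin 6)`. PROOF. `|H| ∈ {1, 3, 9}` (it divides `720`). The sum in
StUB is `(c1 ^ 2 + c2 ^ 2) * 18` (`3! * 3 * 1 = 18`, `0! * 9 * 2 = 18`). If `|H| ≤ 3`, then
`c1 + c2 ≤ 2`, so `2 * bad H ≤ 72` by StUB. Let `|H| = 9`. Claim: if `y ∈ H`, `y ≠ 1`,
`x y x⁻¹ ∈ H`, then `x H x⁻¹ = H`. The element `z = x y x⁻¹` of order `3` has cycle type
`replicate 1 3` or `replicate 2 3`, its centralizer `C` has order `18` in both cases. `H` and `x H x⁻¹`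
are abelian (order `9`), both contain `z`, so they are subgroups of order `9` of `C`, of index `2`,
hence normal Sylow `3`-subgroups of `C` and equal. So `Bad H x` means `x ∈ N(H)`, and each bad `x` has
all `8` elements `y ≠ 1` of `H` with `x y x⁻¹ ∈ H`. Counting pairs as in UB: `8 * bad H ≤` number of
pairs `= (c1^2 + c2^2) * 18 ≤ ` with `c1 + c2 = 8`, `c1, c2 ≤ 4` by StCNT and StGDX (`A3 2 1 = 4`,
`A3 2 2 = 4`): `32 * 18 = 576`, so `bad H ≤ 72`. (For the count of pairs you may also use directly: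
`bad H = |N(H)|`, which divides `720` and ... ; any proof is fine. Theorem:
StUB → StCNT → StGDX → StS6.) -/
def StS6 : Prop := ∀ H : Subgroup (Perm (Fin 6)), IsPGroup 3 H → bad H ≤ 72

end Pool.Agent.Helper17.SA
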