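import Pool.Agent.Helper17.SA.St
import Pool.Agent.Helper17.SA.Cert

/-!
# Statements of the modules of project SA, part 2: certificates, groups, assembly

Every `St..` is a proposition with a complete proof in its docstring.
-/

set_option autoImplicit false

open scoped Pointwise

namespace Pool.Agent.Helper17.SA

open Equiv

/-- MODULE QA. The tree group is a `2`-group. PROOF. `dd a b ≤ s` iff `a / 2 ^ s = b / 2 ^ s`
(Nat.size_le, testBit of xor; or `a ^^^ b < 2 ^ s`), so `dd` is an ultrametric. CLAIM: if `z ∈ Q0 m`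
and `dd (z i) i ≤ s + 1` for all `i` then `dd (z (z i)) i ≤ s` for all `i`. Put `a = i`, `b = z i`,
`c = z b`; `dd b c = dd a b` since `z` preserves `dd`. If this is `≤ s`, ultrametric. If it is
`s + 1`: `a, b` agree in all bits above bit `s` and differ in bit `s`, same for `b, c`, so `a, c` agree
in bit `s` and above. So with `M = Nat.size m`: `dd (y i) i ≤ M` (both are `< 2 ^ M`), and by
induction `dd ((y ^ 2 ^ l) i) i ≤ M - l`, so `y ^ 2 ^ M = 1` for all `y ∈ Q0 m`
(IsPGroup: orders are powers of 2). -/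
def StQA : Prop := ∀ m : ℕ, IsPGroup 2 (Q0 m)

/-- MODULE QB. Lower bound for the order of the tree group. PROOF. Induction on `m`; it is enough
that `2 ^ v * |Q0 m| ≤ |Q0 (m+1)|`, `v = padicValNat 2 (m+1)` (`(m+1)! = (m+1) m!`). Here
`m + 1 = 2 ^ v * u`, `u` odd, so `m = 2 ^ v * (u - 1) + (2 ^ v - 1)`: the last `v` bits of `m` are ones.
Let `B = {i | i ^^^ m < 2 ^ v}` (all its elements are `≤ m`). (1) For `c < 2 ^ v` let `t c` be the
permutation of `Fin (m+1)` with `i ↦ i ^^^ c` on `B` and `i ↦ i` outside; it preserves `dd`: for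
`i, j ∈ B` the xor does not change, for `i ∈ B`, `j ∉ B` we have `i ^^^ j ≥ 2 ^ v` and only its last
`v` bits change, so its size does not. (2) For `z ∈ Q0 m` let `e z` be the extension to `Fin (m+1)`
that fixes `m`; claim `dd (z i) m = dd i m` for `i < m`: the number `N s i = #{j < m | dd i j ≤ s}` is
invariant, `N s (z i) = N s i`; the block `{j | dd i j ≤ s}` of all natural numbers is an interval
of `2 ^ s` numbers; if `s < dd i m` it does not contain `m`, contains `i < m`, so it lies below `m` and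
`N s i = 2 ^ s`; if `s ≥ dd i m` it contains `m`, so `N s i < 2 ^ s`. So `dd i m` is the least `s`
with `N s i < 2 ^ s`. (3) `(c, z) ↦ t c * e z` is injective into `Q0 (m+1)`: the image of `m` is
`m ^^^ c`, which gives `c`. -/
def StQB : Prop := ∀ m : ℕ, 2 ^ padicValNat 2 m.factorial ≤ Nat.card (Q0 m)

/-- MODULE SYL (theorem: StQA → StQB → StSYL). PROOF. `Q0 m` lies in a Sylow `2`-subgroup `P0` of
`Perm (Fin m)`, which has order `2 ^ padicValNat 2 m!` (Sylow.card_eq_multiplicity, or the order of a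
`2`-subgroup is a power of `2` dividing `m!`); by StQB `Q0 m = P0`. `P` is conjugate to `P0`, and
conjugation by `g` maps the bad elements of one to the bad elements of the other
(`x ↦ g x g⁻¹`). -/
def StSYL : Prop :=
  ∀ (m : ℕ) (P : Sylow 2 (Perm (Fin m))),
    Nat.card (P : Subgroup (Perm (Fin m))) = 2 ^ padicValNat 2 m.factorial ∧
    Nat.card (Q0 m) = 2 ^ padicValNat 2 m.factorial ∧
    bad (P : Subgroup (Perm (Fin m))) = bad (Q0 m)

/-- MODULE CER. Regular double cosets. PROOF. `(i, a, b) ↦ a * x i * b` is injective from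
`Fin k × H × H`: if `a x_i b = a' x_j b'` then `(a'⁻¹ a) x_i (b b'⁻¹) = x_j`, so `i = j`, and then
`x_i y x_i⁻¹ ∈ H` for `y = b b'⁻¹ ∈ H`, so `y = 1` as `x_i` is not bad, `b = b'`, `a = a'`. All values
`a x_i b` are not bad: if `y ∈ H` and `(a x b) y (a x b)⁻¹ ∈ H` then `x (b y b⁻¹) x⁻¹ ∈ H`, so
`b y b⁻¹ = 1`. The numbers of bad and of not bad elements add up to `|G|`. -/
def StCER : Prop :=
  ∀ (G : Type) [Group G] [Finite G] (H : Subgroup G) (k : ℕ) (x : Fin k → G),
    (∀ i, ¬ Bad H (x i)) → (∀ i j, i ≠ j → ∀ a ∈ H, ∀ b ∈ H, a * x i * b ≠ x j) →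
    k * (Nat.card H) ^ 2 + bad H ≤ Nat.card G

/-- MODULE RIG. Soundness of the search. PROOF. Suppose `y ∈ Q0 m`, `x y x⁻¹ ∈ Q0 m`. Then
`dd (y i) (y j) = dd i j` and (apply the second to `x i`, `x j`) `dd (x (y i)) (x (y j)) =
dd (x i) (x j)`. So with `L = [y (t-1), …, y 0]` the value `y t` is compatible (`okk`), for all `t < m`.
By induction on `f` (with `t + f = m`): `rig m xs f L = true` implies that `y i = i` for all `i`.
Hence `y = 1`. -/
def StRIG : Prop :=
  ∀ (m : ℕ) (x : Perm (Fin m)), rig m (lst m x) m [] = true → ¬ Bad (Q0 m) x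

/-- MODULE KEY. Invariance of the key. PROOF. The key is the sum over `i, j : Fin m` of
`1000 ^ (5 * dd i j + dd (x i) (x j))`. For `g = a x b`: `dd (g i) (g j) = dd (x (b i)) (x (b j))` as
`a ∈ Q0 m`, and `dd i j = dd (b i) (b j)`; reindex the sum by `b`. -/
def StKEY : Prop :=
  ∀ (m : ℕ) (x a b : Perm (Fin m)), a ∈ Q0 m → b ∈ Q0 m →
    key m (lst m (a * x * b)) = key m (lst m x)

/-- MODULE CM (theorem: StCER → StRIG → StKEY → StCM). PROOF. The lists `dat5, …, dat12` consist of
permutations of `0, …, m - 1` with `rig m x m [] = true` and pairwise different keys (checked by a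
program with `#eval`; the search visits at most 312 nodes for one list). Turn a list of length `m`
without repetitions and with entries `< m` into a permutation `x` of `Fin m` with `lst m x` equal to
it; apply StCER with `k = need m`: not bad by StRIG, different double cosets by StKEY. For the
kernel: `Nat.size` is slow, use a lemma `Nat.size n = if n = 0 then 0 else Nat.log2 n + 1` and Bool
copies of `rig` and `key` (`decide +kernel`); `Nat.xor`, `Nat.log2`, `Nat.pow` are fast. -/
def StCM : Prop :=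
  ∀ m : ℕ, m = 5 ∨ m = 6 ∨ m = 9 ∨ m = 10 ∨ m = 12 →
    need m * (Nat.card (Q0 m)) ^ 2 + bad (Q0 m) ≤ m.factorial

/-- MODULE O8. Three conjugates of `Q0 8` intersect trivially. PROOF. Take the permutations with
`lst 8 x = o8a` and `lst 8 z = o8b`; the same search as in RIG with three structures (`dd i j`,
`dd (x i) (x j)`, `dd (z i) (z j)`) finds only the identity (128 nodes, checked by a program). -/
def StO8 : Prop :=
  ∃ x z : Perm (Fin 8), ∀ y ∈ Q0 8, x * y * x⁻¹ ∈ Q0 8 → z * y * z⁻¹ ∈ Q0 8 → y = 1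

/-- MODULE E8 (theorem: StSYL → StCER → StO8 → StE8). PROOF. `2 ^ padicValNat 2 8! = 128`. First part:
all Sylow `2`-subgroups of `Perm (Fin 8)` are conjugate to `Q0 8` and vice versa (StSYL: orders), so
the intersection of all of them is trivial by StO8. By `StarAt` there are Sylow subgroups `P'`, `Q'`
with `P' ∩ Q' = 1`; `P = g P' g⁻¹`, `Q' = u P' u⁻¹`, so some `x` is not bad for `P`; StCER with
`k = 1`: `128 ^ 2 + bad P ≤ 8!`. Second part: the subgroup `A0` of the alternating group whose elements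
are the even elements of `Q0 8` has order `64` (`Q0 8` contains a transposition), which is the
order of the Sylow `2`-subgroups of the alternating group (`|A_8| = 20160 = 64 * 315`); so `A0` and its
conjugates by `x, z : Perm (Fin 8)` (even elements of `x⁻¹ Q0 x`, …) are Sylow `2`-subgroups and their
intersection is trivial by StO8. As before `64 ^ 2 + bad P ≤ 20160`. -/
def StE8 : Prop :=
  (∀ P : Sylow 2 (Perm (Fin 8)), StarAt (Perm (Fin 8)) 2 →
    bad (P : Subgroup (Perm (Fin 8))) + 16384 ≤ 40320) ∧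
  (∀ P : Sylow 2 (alternatingGroup (Fin 8)), StarAt (alternatingGroup (Fin 8)) 2 →
    bad (P : Subgroup (alternatingGroup (Fin 8))) + 4096 ≤ 20160)

/-- MODULE TR. Transfer to the alternating group. PROOF. Let `P' = P.map subtype`. By the Frattini
argument (Sylow.normalizer_sup_eq_top for the normal subgroup `alternatingGroup`) there is an odd
permutation `g` in the normalizer of `P'` (the alternating group is not everything as `m ≥ 2`). If
`x ∈ A_m` is bad for `P` then `x` and `x g` are bad for `P'`: if `y ∈ P'`, `y ≠ 1`, `x y x⁻¹ ∈ P'` then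
`y' = g⁻¹ y g ∈ P'` and `(x g) y' (x g)⁻¹ = x y x⁻¹`. `x` is even, `x g` is odd, so this gives
`2 * bad P` different bad elements for `P'`. -/
def StTR : Prop :=
  ∀ (m p : ℕ) (P : Sylow p (alternatingGroup (Fin m))), 2 ≤ m → p.Prime →
    2 * bad (P : Subgroup (alternatingGroup (Fin m))) ≤
      bad ((P : Subgroup (alternatingGroup (Fin m))).map (alternatingGroup (Fin m)).subtype)

/-- MODULE BW (theorem: StUB → StCNT → StBW). The count inserted in the first moment bound. PROOF.
First part: StUB and StCNT for `α = Fin m`, `k ≤ m / p`. Second part: if all elements of `H` are even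
permutations, then `cc H 2 k = 0` for odd `k` (the sign of a product of `k` disjoint transpositions
is `(-1) ^ k`, Perm.sign_of_cycleType), so only even `k` contribute in StUB. -/
def StBW : Prop :=
  (∀ (p N m : ℕ) (R : ℕ → ℕ → ℕ) (H : Subgroup (Perm (Fin m))), p.Prime → Good p N R →
    m / p ≤ N → IsPGroup p H → (p - 1) * bad H ≤ W R p m) ∧
  (∀ (N m : ℕ) (R : ℕ → ℕ → ℕ) (H : Subgroup (Perm (Fin m))), Good 2 N R → m / 2 ≤ N →
    IsPGroup 2 H → H ≤ alternatingGroup (Fin m) → bad H ≤ We R 2 m)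

/-- MODULE TOT (theorem: StBW → StGDT → StA57 → StTOT). PROOF. For `i` with `q = p i ≥ 11`: by StBW and
StGDT `(q - 1) * bad (H i) ≤ W (RT q) q m`, by StA57 `(q-2)! * bad (H i) ≤ 3 m!`. The primes are
distinct, so the sum of these `bad (H i)` is at most `3 m! ∑ j ≥ 9, 1 / j! ≤ 3 m! (10/9) / 9! ≤
m! / 10000` (the left side is an integer, so it is at most the integer part). A prime smaller than
`11` is `2, 3, 5` or `7`, at most one `i` for each. -/
def StTOT : Prop :=
  ∀ (m : ℕ) (ι : Type) [Fintype ι] (p : ι → ℕ) (H : ι → Subgroup (Perm (Fin m)))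
    (b2 b3 b5 b7 : ℕ), (∀ i, (p i).Prime) → Function.Injective p → (∀ i, IsPGroup (p i) (H i)) →
    (∀ i, p i = 2 → bad (H i) ≤ b2) → (∀ i, p i = 3 → bad (H i) ≤ b3) →
    (∀ i, p i = 5 → bad (H i) ≤ b5) → (∀ i, p i = 7 → bad (H i) ≤ b7) →
    ∑ i, bad (H i) ≤ b2 + b3 + b5 + b7 + m.factorial / 10000

/-- The part of the sum that comes from odd primes. -/
def odds (m : ℕ) : ℕ :=
  W A3 3 m / 2 + W (RT 5) 5 m / 4 + W (RT 7) 7 m / 6 + m.factorial / 10000

/-- MODULE NSM. Small numerical values (checked by a program; interval_cases or explicit cases and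
`decide +kernel`, if necessary with Horner-like auxiliary functions or `norm_num` with
`Finset.sum_Icc_succ_top`). -/
def StNSM : Prop :=
  (∀ m : ℕ, m = 7 ∨ m = 11 ∨ m = 13 ∨ m = 15 ∨ (17 ≤ m ∧ m ≤ 21) →
    W A2 2 m + odds m < m.factorial) ∧
  (∀ m : ℕ, m = 14 ∨ m = 16 →
    W A2 2 m + odds m < m.factorial + (m / 2 * (m / 2 - 1)) ^ 2 * 4 * (m - 4).factorial) ∧
  (odds 5 < 4 ^ 3 ∧ odds 8 < 4 ^ 6 ∧ odds 9 < 7 * 4 ^ 7 ∧ odds 10 < 7 * 4 ^ 8 ∧
    odds 12 < 41 * 4 ^ 10) ∧
  (72 + W (RT 5) 5 6 / 4 + W (RT 7) 7 6 / 6 + Nat.factorial 6 / 10000 < 4 ^ 4) ∧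
  (∀ m : ℕ, 5 ≤ m → m ≤ 21 → m ≠ 8 → We A2 2 m + odds m < m.factorial) ∧
  (padicValNat 2 (Nat.factorial 5) = 3 ∧ padicValNat 2 (Nat.factorial 6) = 4 ∧
    padicValNat 2 (Nat.factorial 9) = 7 ∧ padicValNat 2 (Nat.factorial 10) = 8 ∧
    padicValNat 2 (Nat.factorial 12) = 10)

/-- MODULE SY2 (theorem: StBW → StUB2 → StTRN → StCNT → StGDT → StGDX → StSYL → StCM → StE8 → StAN2 →
StAN3 → StA57 → StNUM → StNSM → StS6 → StSY2). Bounds for `2` and the other small primes in symmetric
groups. PROOF. `b3, b5, b7` are `W A3 3 m / 2` (`m ≤ 21`; StGDX, `m / 3 ≤ 7`; for `m = 6` use `72`) or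
`W (RT 3) 3 m / 2` (`m ≥ 22`), `W (RT 5) 5 m / 4`, `W (RT 7) 7 m / 6`; all by StBW. `b2`:
`m = 5, 6, 9, 10, 12`: `b2 = m! - need m * 4 ^ v` by StSYL and StCM; `m = 8`: `b2 = 8! - 4 ^ 7` by StE8
(if `P` exists; `StarAt` is assumed); `m = 14, 16`: StUB2 with StTRN (`cc P 2 1 ≥ m / 2`) and
StCNT, StGDX: `b2 = W A2 2 m - (m/2 (m/2 - 1))^2 * 4 * (m-4)!` (`t (t-1)` is monotone in `t`);
`m = 7, 11, 13, 15, 17, …, 21`: `b2 = W A2 2 m`; `m ≥ 22`: `b2 = W (RT 2) 2 m`. The sum is smaller than
`m!` by StNSM, StNUM, and for `m ≥ 150` by StAN2, StAN3, StA57: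
`3/4 + 1/20 + 1/400 + 1/48 + 1/10000 < 1`. (`p - 1 = 1, 2, 4, 6`; `(p-1) * bad ≤ W` gives
`bad ≤ W / (p-1)`.) -/
def StSY2 : Prop :=
  ∀ m : ℕ, 5 ≤ m → ∃ b2 b3 b5 b7 : ℕ, b2 + b3 + b5 + b7 + m.factorial / 10000 < m.factorial ∧
    (∀ P : Sylow 2 (Perm (Fin m)), StarAt (Perm (Fin m)) 2 →
      bad (P : Subgroup (Perm (Fin m))) ≤ b2) ∧
    (∀ H : Subgroup (Perm (Fin m)), IsPGroup 3 H → bad H ≤ b3) ∧
    (∀ H : Subgroup (Perm (Fin m)), IsPGroup 5 H → bad H ≤ b5) ∧
    (∀ H : Subgroup (Perm (Fin m)), IsPGroup 7 H → bad H ≤ b7)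

/-- MODULE SYM (theorem: StTOT → StSY2 → StSYM). PROOF. Let `P i` be given. By StTOT and StSY2 the sum of the
`bad (P i)` is smaller than `m! = |Perm (Fin m)|`, so some `x` is bad for no `P i`. Then
`P i ∩ x⁻¹ (P i) x = 1`: an element `y` of it has `y ∈ P i` and `x y x⁻¹ ∈ P i`. The intersection of all
Sylow `p i`-subgroups is contained in both (`x⁻¹ (P i) x` is a Sylow subgroup), so it is trivial too.
(In StSY2 `StarAt` at `2` is only needed if `p i = 2` for some `i`, otherwise take `b2` as it is: the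
condition of StTOT for `2` is empty.) -/
def StSYM : Prop := ∀ m : ℕ, 5 ≤ m → Q1 (Perm (Fin m))

/-- MODULE ALT (theorem: StTR → StTOT → StBW → StGDT → StGDX → StE8 → StAN2 → StAN3 → StA57 → StNUM → StNSM →
StALT). PROOF. Let `P i` be Sylow `p i`-subgroups of `A_m`, `P' i` their images in `Perm (Fin m)`
(`p i`-subgroups). By StTR `2 * bad (P i) ≤ bad (P' i)`. If `m ≠ 8` the sum of the `bad (P' i)` is `< m!`
by StTOT: for `m ≤ 21` with `b2 = We A2 2 m` (StBW, second part), `b3 = W A3 3 m / 2`, …, StNSM; for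
`m ≥ 22` with `b2 = W (RT 2) 2 m` (StBW, first part) as in SY2 (StNUM, StAN2, StAN3, StA57). So the sum of
the `bad (P i)` is `< m! / 2 = |A_m|`. If `m = 8`: for the primes different from `2` the sum of
`2 * bad (P i)` is at most `odds 8 < 4096` (StTOT applied to the indices with `p i ≠ 2`, `b2 = 0`), so
the sum of these `bad (P i)` is `< 2048`, and for `p i = 2`: `bad (P i) ≤ 20160 - 4096` by StE8. In
total `< 20160 = |A_8|`. So some `x ∈ A_m` is bad for no `P i`; conclude as in SYM. -/
def StALT : Prop := ∀ m : ℕ, 5 ≤ m → Q1 (alternatingGroup (Fin m))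

/-- MODULE SML. Small groups. PROOF. Let `P` be a Sylow `q`-subgroup of `G`, `O` the intersection of all
Sylow `q`-subgroups, and let `g P` be the number of `x` with `P ∩ x⁻¹ P x = O`. CLAIM: if `StarAt G q`
then `g P = |G|` or `q * |P| ≤ g P`. If all Sylow subgroups are equal then `g P = |G|`. Otherwise
`O` is a proper subgroup of `P`, so `q * |O| ≤ |P|`. By `StarAt` and Sylow's theorem there is `x0` with
`P ∩ x0⁻¹ P x0 = O` (some two Sylow subgroups `P', Q'` have `P' ∩ Q' = O`; conjugate `P'` to `P`; `O`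
is normal), and all elements of the double coset `P x0 P` have this property; the double coset has
`|P|^2 / |P ∩ x0⁻¹ P x0| = |P|^2 / |O| ≥ q |P|` elements (`(a, b) ↦ a x0 b` has fibres of size
`|P ∩ x0⁻¹ P x0|`). Now let `|G|` be one of the numbers. For a prime `q` that does not divide `|G|`
the Sylow `q`-subgroup is trivial and every `x` is good; the primes dividing `|G|` are `2` and `3`.
The number of `x` that are not good for `2` is at most `|G| - 2 |P|` or `0`, for `3` at most
`|G| - 3 |P|` or `0`: `|G| = 24`: `8 + 15 < 24`; `12`: `4 + 3 < 12`; `6`: `2 + 0 < 6`; `3`, `2`, `1`: `0`. -/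
def StSML : Prop :=
  ∀ (G : Type) [Group G] [Finite G], Nat.card G = 1 ∨ Nat.card G = 2 ∨ Nat.card G = 3 ∨
    Nat.card G = 6 ∨ Nat.card G = 12 ∨ Nat.card G = 24 → Q1 G

/-- MODULE PRD. Direct products. PROOF. Let `G = ∏ c, H c`, `q` a prime. (1) If `R c` are Sylow
`q`-subgroups of `H c` then their product (Subgroup.pi) is a Sylow `q`-subgroup of `G` (a `q`-group of
the right order). (2) Every Sylow `q`-subgroup `P` of `G` is of this form: the projections `P c` of `P`
are `q`-groups, contained in Sylow `q`-subgroups `R c`, `P ≤ ∏ R c`, so equality by maximality (and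
so the projection of `P` is `R c`). (3) So `O_q(G) = ∏ O_q(H c)` for the intersections of all Sylow
subgroups. (4) `StarAt G q` implies `StarAt (H c) q` for every `c`: take the components of the two
Sylow subgroups; if `y` is in both components at `c` then the element with `y` at `c` and `1`
elsewhere is in both, so it is in all Sylow subgroups of `G`, so `y` is in all Sylow subgroups of
`H c`. (5) Given Sylow subgroups `P i` of `G`, with components `P i c`, take `x c` by `Q1 (H c)` and
`x = (x c)`; then `P i ∩ x⁻¹ (P i) x = ∏ c (P i c ∩ (x c)⁻¹ (P i c) (x c)) = ∏ c O = O_q(G)`. -/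
def StPRD : Prop :=
  ∀ (κ : Type) [Finite κ] (H : κ → Type) [∀ c, Group (H c)] [∀ c, Finite (H c)],
    (∀ c, Q1 (H c)) → Q1 (∀ c, H c)

/-- MODULE ISO. Invariance under isomorphisms. PROOF. An isomorphism `e` induces a bijection between the
Sylow `q`-subgroups (Sylow.comap / map of subgroups, Sylow.mapSurjective or ofCard); transport
everything. -/
def StISO : Prop :=
  ∀ (G H : Type) [Group G] [Group H] [Finite G] [Finite H], Nonempty (G ≃* H) → Q1 G → Q1 H

/-- MODULE FIN (theorem: StSYM → StALT → StSML → StPRD → StISO → StFIN). PROOF. Every `H c` satisfies `Q1`: for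
`m ≥ 5` by StSYM, StALT and StISO; for `m ≤ 4` the orders of `Perm (Fin m)` and
`alternatingGroup (Fin m)` are `1, 1, 2, 6, 24` and `1, 1, 1, 3, 12` (StSML, StISO). By StPRD and StISO
`Q1 (G ⧸ N k)`, so with `StarAt (G ⧸ N k) (p i)` the synchronized statement holds for `G ⧸ N k`. Then use
the landed theorem Pool.Agent.Results.MP_21f9f3_al.NilpotentLifting.result (part 1), or better
Pool.Agent.Helper88.SL.chain as in that file (import Pool.Agent.Helper88.SL.Chain and copy the few
lines of the proof of part 1). -/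
def StFIN : Prop :=
  ∀ (G : Type) [Group G] [Finite G] (k : ℕ) (N : ℕ → Subgroup G) [∀ j, (N j).Normal],
    N 0 = ⊥ → (∀ j < k, N j ≤ N (j + 1)) →
    (∀ j < k, Group.IsNilpotent ((N (j + 1)).map (QuotientGroup.mk' (N j)))) →
    ∀ (κ : Type) [Finite κ] (H : κ → Type) [∀ c, Group (H c)],
    (∀ c, ∃ m : ℕ, Nonempty (H c ≃* Perm (Fin m)) ∨ Nonempty (H c ≃* alternatingGroup (Fin m))) →
    Nonempty ((G ⧸ N k) ≃* ∀ c, H c) →
    ∀ (ι : Type) [Finite ι] (p : ι → ℕ), (∀ i, (p i).Prime) → Function.Injective p →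
    (∀ j ≤ k, ∀ i, StarAt (G ⧸ N j) (p i)) → SyncFor G p

end Pool.Agent.Helper17.SA
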