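import Pool.Agent.Helper17.SA.St4

/-!
# Statements of the modules of project SA, part 5: no `(*)` for good primes

Every `St..` is a proposition with a complete proof in its docstring.
-/

set_option autoImplicit false

open scoped Pointwise

namespace Pool.Agent.Helper17.SA

open Equiv

/-- MODULE LS1. Lifting of `(*)` for one odd prime through an elementary abelian normal subgroup. PROOF.
This is the induction step of Pool.Agent.Helper96.Sy.group_main (file
Pool/Agent/Helper96/SyGroup.lean) for one prime (`ι = Unit`), where the induction hypothesis is only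
used for `G ⧸ N` (so `G` need not be solvable); copy it. In short: let `P` be a Sylow `q`-subgroup of
`G`. If `q = r` then `G ⧸ N` and `G` have corresponding Sylow `q`-subgroups and `q`-cores. Let
`q ≠ r`. By `StarAt (G ⧸ N) q` there is `x₀` with `π P ∩ (π P) ^ x₀ = O_q(G ⧸ N)`; `K` = preimage of it,
`T = P ∩ K`, `K = T N`; `T ^ x₀ = T ^ m` with `m ∈ N`. The image of `T` in `Aut N` is a `q`-group, so by
Pool.Agent.Helper96.Sy.core_mul (hypothesis `Hyp q |N|`: `|N|` is odd, or `|N|` is a power of `2` and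
`q + 1` is no power of `2`) there is `v ∈ N` such that every `t ∈ T` that fixes `v m` centralizes `N`.
Then `P ∩ P ^ (x₀ v)` lies in the normal `q`-subgroup `C_T(N)` of `G`. (`StarAt` from this: `P` and
`P ^ x`.) -/
def StLS1 : Prop :=
  ∀ (G : Type) [Group G] [Finite G] (N : Subgroup G) [N.Normal] (r q : ℕ), r.Prime → q.Prime →
    (∀ a ∈ N, ∀ b ∈ N, a * b = b * a) → (∀ a ∈ N, a ^ r = 1) → q ≠ 2 →
    (Odd (Nat.card N) ∨ ∀ c : ℕ, q + 1 ≠ 2 ^ c) → StarAt (G ⧸ N) q → StarAt G q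

/-- MODULE LS2 (theorem: StLS1 → StISO → StLS2). The same for solvable `N`. PROOF. Induction on `|N|`.
`N = 1`: `G ⧸ ⊥ ≃* G` and `StarAt` is invariant under isomorphisms (see Pool.Agent.Helper64.SA.M_ISO).
Otherwise let `E` be the set of elements of order dividing `r` in the last nontrivial term `A` of the
derived series of `N` (`r` a prime divisor of `|A|`; see Pool.Agent.Helper96.Sy.exists_elementary); `E`
is nontrivial, elementary abelian, and normal in `G` (invariant under conjugation by `G`, as `A` is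
characteristic in `N` and `E` is characteristic in `A`). `(G ⧸ E) ⧸ (N / E) ≃* G ⧸ N`, and
`|N / E| < |N|` divides `|N|`, so `StarAt (G ⧸ E) q` by induction, and `StarAt G q` by StLS1. -/
def StLS2 : Prop :=
  ∀ (G : Type) [Group G] [Finite G] (N : Subgroup G) [N.Normal] (q : ℕ), q.Prime →
    Group.IsSolvable N → q ≠ 2 → (Odd (Nat.card N) ∨ ∀ c : ℕ, q + 1 ≠ 2 ^ c) →
    StarAt (G ⧸ N) q → StarAt G q

/-- MODULE CH5 (theorem: StCH3 → StLS2 → StCH5). Series. PROOF. Downward induction: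
`SyncFor (G ⧸ N (j+1)) p` implies `SyncFor (G ⧸ N j) p`. Let `G' = G ⧸ N j`, `M` the image of `N (j+1)`,
`G' ⧸ M ≃* G ⧸ N (j+1)`, so `SyncFor (G' ⧸ M) p` (SyncFor is invariant under isomorphisms, see
Pool.Agent.Helper60.SA.M_CH and Pool.Agent.Helper64.SA.M_ISO). Apply StCH3 to `G'` with `k = 1`,
`N 0 = ⊥`, `N j = M` for `j ≥ 1`. In the nilpotent case `StarAt G' (p i)` is needed for all `i`: either
it is assumed or it follows from StLS2 (nilpotent groups are solvable) as `SyncFor (G' ⧸ M) p` implies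
`StarAt (G' ⧸ M) (p i)` (`P i` and its conjugate). -/
def StCH5 : Prop :=
  ∀ (G : Type) [Group G] [Finite G] (k : ℕ) (N : ℕ → Subgroup G) [∀ j, (N j).Normal],
    N 0 = ⊥ → (∀ j < k, N j ≤ N (j + 1)) →
    ∀ (ι : Type) [Finite ι] (p : ι → ℕ), (∀ i, (p i).Prime) → Function.Injective p →
    (∀ j < k,
      (Group.IsNilpotent ((N (j + 1)).map (QuotientGroup.mk' (N j))) ∧
        ∀ i, StarAt (G ⧸ N j) (p i) ∨ (p i ≠ 2 ∧
          (Odd (Nat.card ((N (j + 1)).map (QuotientGroup.mk' (N j)))) ∨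
            ∀ c : ℕ, p i + 1 ≠ 2 ^ c))) ∨
      (∃ (Ω : Type) (_ : Finite Ω) (S : Ω → Type) (_ : ∀ ω, Group (S ω)),
        (∀ ω, IsSimpleGroup (S ω)) ∧ (∀ ω, ∃ a b : S ω, a * b ≠ b * a) ∧
        ((∀ ω, Ample (S ω)) ∨ ((∀ ω, Hit (S ω)) ∧ ∀ i, p i = 2 → StarAt (G ⧸ N j) 2)) ∧
        Nonempty (((N (j + 1)).map (QuotientGroup.mk' (N j))) ≃* ∀ ω, S ω))) →
    SyncFor (G ⧸ N k) p → SyncFor G p

/-- MODULE FI5 (theorem: StCH5 → StAMP → StHAL → StSYM → StALT → StSML → StPRD → StISO → StFI5). First final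
theorem. PROOF. As FI3 (see Pool.Agent.Helper42.SA.M_FI2) with StCH5 instead of StCH3. -/
def StFI5 : Prop :=
  ∀ (G : Type) [Group G] [Finite G] (k : ℕ) (N : ℕ → Subgroup G) [∀ j, (N j).Normal],
    N 0 = ⊥ → (∀ j < k, N j ≤ N (j + 1)) →
    ∀ (ι : Type) [Finite ι] (p : ι → ℕ), (∀ i, (p i).Prime) → Function.Injective p →
    (∀ j < k,
      (Group.IsNilpotent ((N (j + 1)).map (QuotientGroup.mk' (N j))) ∧
        ∀ i, StarAt (G ⧸ N j) (p i) ∨ (p i ≠ 2 ∧
          (Odd (Nat.card ((N (j + 1)).map (QuotientGroup.mk' (N j)))) ∨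
            ∀ c : ℕ, p i + 1 ≠ 2 ^ c))) ∨
      (∃ (Ω : Type) (_ : Finite Ω) (m : Ω → ℕ),
        ((∀ ω, m ω = 7 ∨ 9 ≤ m ω) ∨
          ((∀ ω, m ω = 5 ∨ m ω = 6 ∨ m ω = 8) ∧ ∀ i, p i = 2 → StarAt (G ⧸ N j) 2)) ∧
        Nonempty (((N (j + 1)).map (QuotientGroup.mk' (N j))) ≃*
          ∀ ω, alternatingGroup (Fin (m ω))))) →
    ∀ (κ : Type) [Finite κ] (H : κ → Type) [∀ c, Group (H c)],
    (∀ c, ∃ m : ℕ, Nonempty (H c ≃* Perm (Fin m)) ∨ Nonempty (H c ≃* alternatingGroup (Fin m))) →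
    Nonempty ((G ⧸ N k) ≃* ∀ c, H c) → (∀ i, StarAt (G ⧸ N k) (p i)) → SyncFor G p

/-- MODULE FI6 (theorem: StCH5 → StAMP → StHAL → StISO → StFI6). Second final theorem. PROOF. Strong
induction on `|G|` as in FI4. If `⊥ = ⊤` everything is trivial. Otherwise let `M'` be given for
`M = ⊥`. The group `G ⧸ M'` is smaller and satisfies the hypotheses: a normal subgroup of it is the
image of its preimage `M1 ≥ M'`, and `(G ⧸ M') ⧸ (image of M1) ≃* G ⧸ M1`. So `SyncFor (G ⧸ M') p`. Now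
StCH5 with `k = 1`, `N 0 = ⊥`, `N j = M'` for `j ≥ 1`: if `M'` (that is its image in `G ⧸ ⊥`) is nilpotent
use the first case (for every `i` the first or the second alternative holds), otherwise the second
case with StAMP (`m = 7` or `m ≥ 9`) or StHAL (`m = 5, 6, 8`; for `p i = 2` the first alternative of the
hypothesis is false, so `StarAt` holds for all quotients). The alternating groups of degree at
least `5` are simple (Mathlib) and not commutative. -/
def StFI6 : Prop :=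
  ∀ (G : Type) [Group G] [Finite G] (ι : Type) [Finite ι] (p : ι → ℕ), (∀ i, (p i).Prime) →
    Function.Injective p →
    (∀ i, (p i ≠ 2 ∧ ∀ c : ℕ, p i + 1 ≠ 2 ^ c) ∨
      ∀ (M : Subgroup G) [M.Normal], StarAt (G ⧸ M) (p i)) →
    (∀ (M : Subgroup G) [M.Normal], M ≠ ⊤ → ∃ M' : Subgroup G, M'.Normal ∧ M < M' ∧
      (Group.IsNilpotent (M'.map (QuotientGroup.mk' M)) ∨
        ∃ (Ω : Type) (_ : Finite Ω) (m : ℕ), 5 ≤ m ∧
          Nonempty ((M'.map (QuotientGroup.mk' M)) ≃* (Ω → alternatingGroup (Fin m))))) →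
    SyncFor G p

end Pool.Agent.Helper17.SA
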